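import Pool.Agent.Helper20.BandSum.Fam

/-!
# Symmetries of the family and its two ends
-/

namespace Pool.Agent.Helper20.BandSum

open Real Matrix

variable {n₁ : ℕ} {α β : ℕ → ℝ}

theorem F_op (s t : Tm) (θ φ ψ : ℝ) :
    F n₁ α β (Tm.op s t) θ φ ψ = vop (F n₁ α β s θ φ ψ) (F n₁ α β t θ φ ψ) := rfl

theorem F_x (t : Tm) (θ φ ψ : ℝ) : F n₁ α β t θ (φ + π) ψ =
    if t.base < n₁ then ![F n₁ α β t θ φ ψ 0, F n₁ α β t θ φ ψ 1, -F n₁ α β t θ φ ψ 2]
    else ![-F n₁ α β t θ φ ψ 0, -F n₁ α β t θ φ ψ 1, F n₁ α β t θ φ ψ 2] := by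
  induction t with
  | var j =>
    simp only [F, eval, fam, Tm.base]
    by_cases h : j < n₁
    · simp only [h, if_true]
      funext i
      fin_cases i <;> simp
    · simp only [h, if_false]
      funext i
      fin_cases i <;> simp [cos_add_pi, sin_add_pi] <;> ring
  | op s t ihs iht =>
    rw [F_op, F_op, ihs, iht]
    simp only [Tm.base]
    by_cases h : t.base < n₁ <;> by_cases h' : s.base < n₁ <;> simp only [h, h', if_true, if_false]
    all_goals
      funext i
      fin_cases i <;> simp [vop, dotProduct, Fin.sum_univ_three] <;> ring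

theorem F_y (t : Tm) (θ φ ψ : ℝ) : F n₁ α β t θ φ (ψ + π) =
    if t.base < n₁ then F n₁ α β t θ φ ψ else -F n₁ α β t θ φ ψ := by
  induction t with
  | var j =>
    simp only [F, eval, fam, Tm.base]
    by_cases h : j < n₁
    · simp only [h, if_true]
    · simp only [h, if_false]
      funext i
      have h1 : cos (β j + (ψ + π)) = -cos (β j + ψ) := by rw [← add_assoc, cos_add_pi]
      have h2 : sin (β j + (ψ + π)) = -sin (β j + ψ) := by rw [← add_assoc, sin_add_pi]
      fin_cases i <;> simp [h1, h2] <;> ring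
  | op s t ihs iht =>
    rw [F_op, F_op, ihs, iht]
    simp only [Tm.base]
    by_cases h : t.base < n₁ <;> by_cases h' : s.base < n₁ <;> simp only [h, h', if_true, if_false]
    all_goals
      funext i
      simp [vop, dotProduct, Fin.sum_univ_three]
      try ring

theorem vop_plane (a b : ℝ) :
    vop ![cos a, sin a, 0] ![cos b, sin b, 0] = ![cos (tak a b), sin (tak a b), 0] := by
  obtain ⟨u, rfl⟩ : ∃ u, b = a - u := ⟨a - b, by ring⟩
  have h0 : tak a (a - u) = a + u := by simp only [tak]; ring
  have h3 : cos a * cos (a - u) + sin a * sin (a - u) = cos u := by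
    rw [← cos_sub]
    congr 1
    ring
  rw [h0]
  funext i
  fin_cases i <;> simp [vop, dotProduct, Fin.sum_univ_three, h3] <;>
    simp only [cos_sub, sin_sub, cos_add, sin_add] <;> ring

theorem F_zero (t : Tm) (φ ψ : ℝ) : F n₁ α β t 0 φ ψ =
    ![cos (eval tak (fun j => if j < n₁ then α j else β j + (φ + ψ)) t),
      sin (eval tak (fun j => if j < n₁ then α j else β j + (φ + ψ)) t), 0] := by
  induction t with
  | var j =>
    simp only [F, eval, fam]
    by_cases h : j < n₁
    · simp only [h, if_true]
    · simp only [h, if_false]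
      have h1 : β j + (φ + ψ) = φ + (β j + ψ) := by ring
      rw [h1]
      generalize β j + ψ = γ
      rw [cos_add, sin_add]
      funext i
      fin_cases i <;> simp
  | op s t ihs iht =>
    rw [F_op, ihs, iht, vop_plane]
    rfl

theorem F_pi (t : Tm) (φ ψ : ℝ) : F n₁ α β t π φ ψ =
    ![cos (eval tak (fun j => if j < n₁ then α j else -β j + (φ - ψ)) t),
      sin (eval tak (fun j => if j < n₁ then α j else -β j + (φ - ψ)) t), 0] := by
  induction t with
  | var j =>
    simp only [F, eval, fam]
    by_cases h : j < n₁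
    · simp only [h, if_true]
    · simp only [h, if_false]
      have h1 : -β j + (φ - ψ) = φ - (β j + ψ) := by ring
      rw [h1]
      generalize β j + ψ = γ
      rw [cos_sub, sin_sub]
      funext i
      fin_cases i <;> simp [sub_eq_add_neg]
  | op s t ihs iht =>
    rw [F_op, ihs, iht, vop_plane]
    rfl

end Pool.Agent.Helper20.BandSum
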