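import Pool.Agent.Helper20.BandSum.Top
import Pool.Agent.Helper35.BandEnd

/-!
# The topological lemma: common zeros of three functions
-/

namespace Pool.Agent.Helper20.BandSum

open Real Pool.Agent.Helper35.BandEnd

section signs

/-- the (twisted) sign cochain of a function: `a` is the parity of the number of periods -/
noncomputable def sg (a : ℕ) (r : ℝ) : ZMod 2 := (if 0 < (-1) ^ a * r then 1 else 0) + a

theorem sg_succ (a : ℕ) (r : ℝ) : sg (a + 1) (-r) = sg a r + 1 := by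
  simp only [sg, pow_succ]
  rw [show (-1 : ℝ) ^ a * -1 * -r = (-1) ^ a * r by ring]
  push_cast
  ring

theorem sg_zero_val (a : ℕ) : sg a 0 = a := by simp [sg]

theorem sg_eq {a : ℕ} {r : ℝ} (hr : r ≠ 0) : sg a r = if 0 < r then 1 else 0 := by
  rcases Nat.even_or_odd a with h | h
  · have : (a : ZMod 2) = 0 := (ZMod.natCast_eq_zero_iff_even).2 h
    simp [sg, h.neg_one_pow, this]
  · have h1 : (a : ZMod 2) = 1 := (ZMod.natCast_eq_one_iff_odd).2 h
    simp only [sg, h.neg_one_pow, h1]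
    rcases lt_or_gt_of_ne hr with h2 | h2
    · rw [if_pos (by linarith), if_neg (by linarith)]
      rfl
    · rw [if_neg (by linarith), if_pos h2]
      rfl

/-- if the twisted signs differ then both values are small -/
theorem small_of_sg_ne {a b : ℕ} {r s ε : ℝ} (h : sg a r ≠ sg b s) (hd : |r - s| < ε) :
    |r| < ε ∧ |s| < ε := by
  have key : ∀ (a : ℕ) (r : ℝ), (sg a r = 1 → 0 ≤ r) ∧ (sg a r = 0 → r ≤ 0) := by
    intro a r
    rcases Nat.even_or_odd a with h | h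
    · have : (a : ZMod 2) = 0 := (ZMod.natCast_eq_zero_iff_even).2 h
      simp only [sg, h.neg_one_pow, this]
      constructor
      · intro h1
        by_contra h2
        rw [if_neg (by linarith)] at h1
        exact absurd h1 (by decide)
      · intro h1
        by_contra h2
        rw [if_pos (by linarith)] at h1
        exact absurd h1 (by decide)
    · have h1 : (a : ZMod 2) = 1 := (ZMod.natCast_eq_one_iff_odd).2 h
      simp only [sg, h.neg_one_pow, h1]
      constructor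
      · intro h1
        by_contra h2
        rw [if_pos (by linarith)] at h1
        exact absurd h1 (by decide)
      · intro h1
        by_contra h2
        rw [if_neg (by linarith)] at h1
        exact absurd h1 (by decide)
  have h01 : ∀ z : ZMod 2, z = 0 ∨ z = 1 := by decide
  obtain ⟨h1, h0⟩ := key a r
  obtain ⟨h1', h0'⟩ := key b s
  rw [abs_lt] at hd
  rcases h01 (sg a r) with h2 | h2 <;> rcases h01 (sg b s) with h3 | h3
  · exact absurd (h2.trans h3.symm) h
  · have := h0 h2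
    have := h1' h3
    constructor <;> rw [abs_lt] <;> constructor <;> linarith
  · have := h1 h2
    have := h0' h3
    constructor <;> rw [abs_lt] <;> constructor <;> linarith
  · exact absurd (h2.trans h3.symm) h

theorem small_of_ind_ne {r s ε : ℝ}
    (h : (if 0 < r then (1 : ZMod 2) else 0) ≠ if 0 < s then 1 else 0) (hd : |r - s| < ε) :
    |r| < ε ∧ |s| < ε := by
  rw [abs_lt] at hd
  by_cases h1 : 0 < r <;> by_cases h2 : 0 < s <;> simp only [h1, h2, if_true, if_false] at h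
  · exact absurd rfl h
  · constructor <;> rw [abs_lt] <;> constructor <;> linarith
  · constructor <;> rw [abs_lt] <;> constructor <;> linarith
  · exact absurd rfl h

end signs

/-- neighbouring grid points -/
def Adj (a b : ℕ × ℕ × ℕ) : Prop :=
  (b.1 = a.1 ∨ b.1 = a.1 + 1) ∧ (b.2.1 = a.2.1 ∨ b.2.1 = a.2.1 + 1) ∧
    (b.2.2 = a.2.2 ∨ b.2.2 = a.2.2 + 1)

/-- grid points -/
noncomputable def gp (N n : ℕ) (x0 y0 : ℝ) (a : ℕ × ℕ × ℕ) : ℝ × ℝ × ℝ :=
  (π * a.1 / N, x0 + π * a.2.1 / n, y0 + π * a.2.2 / n)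

theorem dist_step {N : ℕ} (hN : 0 < N) (x : ℝ) {a b : ℕ} (h : b = a ∨ b = a + 1) :
    dist (x + π * a / N) (x + π * b / N) ≤ π / N := by
  have hN' : (0 : ℝ) < N := by exact_mod_cast hN
  rcases h with rfl | rfl
  · rw [dist_self]
    positivity
  · rw [Real.dist_eq]
    have : x + π * a / N - (x + π * ((a + 1 : ℕ) : ℝ) / N) = -(π / N) := by
      push_cast
      ring
    rw [this, abs_neg, abs_of_pos (by positivity)]

theorem dist_gp {N n : ℕ} (hN : 0 < N) (hn : N ≤ n) (x0 y0 : ℝ) {a b : ℕ × ℕ × ℕ}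
    (h : Adj a b) : dist (gp N n x0 y0 a) (gp N n x0 y0 b) ≤ π / N := by
  have hN' : (0 : ℝ) < N := by exact_mod_cast hN
  have hn' : (N : ℝ) ≤ n := by exact_mod_cast hn
  have hle : π / n ≤ π / N := by
    apply div_le_div_of_nonneg_left pi_pos.le hN' hn'
  obtain ⟨h1, h2, h3⟩ := h
  rw [Prod.dist_eq, Prod.dist_eq]
  have h0 := dist_step hN 0 h1
  rw [zero_add, zero_add] at h0
  refine max_le h0 (max_le ?_ ?_)
  · exact (dist_step (by omega) x0 h2).trans hle
  · exact (dist_step (by omega) y0 h3).trans hle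

/-- no trichromatic tetrahedra on a fine grid -/
theorem tet_zero {e2 e3 f : ℝ × ℝ × ℝ → ℝ} {X S T : ℕ → ℕ → ℕ → ZMod 2} {N n : ℕ}
    {x0 y0 η d : ℝ} {K : Set (ℝ × ℝ × ℝ)}
    (hX : ∀ a : ℕ × ℕ × ℕ, X a.1 a.2.1 a.2.2 = if 0 < f (gp N n x0 y0 a) then 1 else 0)
    (hS : ∀ a : ℕ × ℕ × ℕ, ∃ r, S a.1 a.2.1 a.2.2 = sg r (e2 (gp N n x0 y0 a)))
    (hT : ∀ a : ℕ × ℕ × ℕ, ∃ r, T a.1 a.2.1 a.2.2 = sg r (e3 (gp N n x0 y0 a)))
    (hmin : ∀ p ∈ K, η ≤ |e2 p| + |e3 p| + |f p|)
    (u2 : ∀ p ∈ K, ∀ q ∈ K, dist p q < d → dist (e2 p) (e2 q) < η / 5)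
    (u3 : ∀ p ∈ K, ∀ q ∈ K, dist p q < d → dist (e3 p) (e3 q) < η / 5)
    (uf : ∀ p ∈ K, ∀ q ∈ K, dist p q < d → dist (f p) (f q) < η / 5)
    {a b c c' : ℕ × ℕ × ℕ} (ha : gp N n x0 y0 a ∈ K) (hb : gp N n x0 y0 b ∈ K)
    (hc : gp N n x0 y0 c ∈ K) (hc' : gp N n x0 y0 c' ∈ K)
    (hab : dist (gp N n x0 y0 a) (gp N n x0 y0 b) < d)
    (hac : dist (gp N n x0 y0 a) (gp N n x0 y0 c) < d)
    (hbc : dist (gp N n x0 y0 b) (gp N n x0 y0 c) < d)
    (hcd : dist (gp N n x0 y0 c) (gp N n x0 y0 c') < d) : tet X S T a b c c' = 0 := by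
  by_contra hne
  rw [tet] at hne
  have h1 : X a.1 a.2.1 a.2.2 + X b.1 b.2.1 b.2.2 ≠ 0 := fun h => hne (by rw [h]; ring)
  have h2 : S b.1 b.2.1 b.2.2 + S c.1 c.2.1 c.2.2 ≠ 0 := fun h => hne (by rw [h]; ring)
  have h3 : T c.1 c.2.1 c.2.2 + T c'.1 c'.2.1 c'.2.2 ≠ 0 := fun h => hne (by rw [h]; ring)
  have h1' : X a.1 a.2.1 a.2.2 ≠ X b.1 b.2.1 b.2.2 := fun h => h1 (by
    rw [h]; exact CharTwo.add_self_eq_zero _)
  have h2' : S b.1 b.2.1 b.2.2 ≠ S c.1 c.2.1 c.2.2 := fun h => h2 (by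
    rw [h]; exact CharTwo.add_self_eq_zero _)
  have h3' : T c.1 c.2.1 c.2.2 ≠ T c'.1 c'.2.1 c'.2.2 := fun h => h3 (by
    rw [h]; exact CharTwo.add_self_eq_zero _)
  rw [hX, hX] at h1'
  obtain ⟨r, hr⟩ := hS b
  obtain ⟨r', hr'⟩ := hS c
  rw [hr, hr'] at h2'
  obtain ⟨t, ht⟩ := hT c
  obtain ⟨t', ht'⟩ := hT c'
  rw [ht, ht'] at h3'
  have k1 := (small_of_ind_ne h1' (by rw [← Real.dist_eq]; exact uf _ ha _ hb hab)).1
  have k2 := (small_of_sg_ne h2' (by rw [← Real.dist_eq]; exact u2 _ hb _ hc hbc)).1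
  have k3 := (small_of_sg_ne h3' (by rw [← Real.dist_eq]; exact u3 _ hc _ hc' hcd)).1
  have l2 := u2 _ ha _ hb hab
  have l3 := u3 _ ha _ hc hac
  rw [Real.dist_eq] at l2 l3
  have m2 : |e2 (gp N n x0 y0 a)| ≤
      |e2 (gp N n x0 y0 a) - e2 (gp N n x0 y0 b)| + |e2 (gp N n x0 y0 b)| := by
    have := abs_add_le (e2 (gp N n x0 y0 a) - e2 (gp N n x0 y0 b)) (e2 (gp N n x0 y0 b))
    rwa [sub_add_cancel] at this
  have m3 : |e3 (gp N n x0 y0 a)| ≤
      |e3 (gp N n x0 y0 a) - e3 (gp N n x0 y0 c)| + |e3 (gp N n x0 y0 c)| := by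
    have := abs_add_le (e3 (gp N n x0 y0 a) - e3 (gp N n x0 y0 c)) (e3 (gp N n x0 y0 c))
    rwa [sub_add_cancel] at this
  have := hmin _ ha
  linarith

theorem sin_half_ne {N : ℕ} (hN : 0 < N) (i : ℕ) : sin (π * ((i : ℝ) - 1 / 2) / N) ≠ 0 := by
  intro h
  obtain ⟨z, hz⟩ := Real.sin_eq_zero_iff.1 h
  have hN' : (0 : ℝ) < N := by exact_mod_cast hN
  have h1 : (z : ℝ) = ((i : ℝ) - 1 / 2) / N := by
    have hpi := pi_pos.ne'
    have : (z : ℝ) * π = ((i : ℝ) - 1 / 2) / N * π := by rw [hz]; ring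
    exact mul_right_cancel₀ hpi this
  rw [eq_div_iff hN'.ne'] at h1
  have h2 : ((2 * (z * N) + 1 : ℤ) : ℝ) = ((2 * i : ℤ) : ℝ) := by
    push_cast
    linarith
  have h3 : 2 * (z * (N : ℤ)) + 1 = 2 * (i : ℤ) := by exact_mod_cast h2
  omega

theorem gp_x {N n : ℕ} (hn : 0 < n) (x0 y0 : ℝ) (k j : ℕ) :
    gp N n x0 y0 (k, n, j) = ((gp N n x0 y0 (k, 0, j)).1, (gp N n x0 y0 (k, 0, j)).2.1 + π,
      (gp N n x0 y0 (k, 0, j)).2.2) := by
  have hn' : (n : ℝ) ≠ 0 := by exact_mod_cast hn.ne'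
  simp only [gp]
  rw [Prod.mk.injEq, Prod.mk.injEq]
  refine ⟨rfl, ?_, rfl⟩
  push_cast
  field_simp
  ring

theorem gp_y {N n : ℕ} (hn : 0 < n) (x0 y0 : ℝ) (k i : ℕ) :
    gp N n x0 y0 (k, i, n) = ((gp N n x0 y0 (k, i, 0)).1, (gp N n x0 y0 (k, i, 0)).2.1,
      (gp N n x0 y0 (k, i, 0)).2.2 + π) := by
  have hn' : (n : ℝ) ≠ 0 := by exact_mod_cast hn.ne'
  simp only [gp]
  rw [Prod.mk.injEq, Prod.mk.injEq]
  refine ⟨rfl, rfl, ?_⟩
  push_cast
  field_simp
  ring

/-- **The topological lemma.** -/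
theorem top_lemma (m : ℕ) (hm : Odd m) (κ : ℤ) (δ : ℕ) (hκ : Even (κ + δ * m))
    (hcop : IsCoprime κ (m : ℤ)) (A0 A1 B0 B1 : ℝ) (e2 e3 f : ℝ × ℝ × ℝ → ℝ)
    (c2 : Continuous e2) (c3 : Continuous e3) (cf : Continuous f)
    (h2x : ∀ t x y, e2 (t, x + π, y) = -e2 (t, x, y))
    (h2y : ∀ t x y, e2 (t, x, y + π) = -e2 (t, x, y))
    (h3x : ∀ t x y, e3 (t, x + π, y) = e3 (t, x, y))
    (h3y : ∀ t x y, e3 (t, x, y + π) = -e3 (t, x, y))
    (hfx : ∀ t x y, f (t, x + π, y) = f (t, x, y))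
    (hfy : ∀ t x y, f (t, x, y + π) = f (t, x, y))
    (e20 : ∀ x y, e2 (0, x, y) = sin (A0 + m * (x + y)))
    (e21 : ∀ x y, e2 (π, x, y) = sin (A1 + m * (x - y)))
    (e30 : ∀ x y, e3 (0, x, y) = 0) (e31 : ∀ x y, e3 (π, x, y) = 0)
    (f0 : ∀ x y, f (0, x, y) = cos (B0 + κ * (x + y)) * cos (A0 + m * (x + y)) ^ δ)
    (f1 : ∀ x y, f (π, x, y) = cos (B1 + κ * (x - y)) * cos (A1 + m * (x - y)) ^ δ)
    (hC0 : cos (m * B0 - κ * A0) < 0) (hC1 : 0 < cos (m * B1 - κ * A1)) :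
    ∃ p, e2 p = 0 ∧ e3 p = 0 ∧ f p = 0 := by
  by_contra hno
  push Not at hno
  have hm0 : 0 < m := hm.pos
  have hm' : (0 : ℝ) < m := by exact_mod_cast hm0
  -- the compact box
  set R : ℝ := 20 + |A0| + |A1| with hR
  have hRpos : 0 < R := by positivity
  set K : Set (ℝ × ℝ × ℝ) := Set.Icc 0 π ×ˢ (Set.Icc (-R) R ×ˢ Set.Icc (-R) R) with hK
  have hKc : IsCompact K := isCompact_Icc.prod (isCompact_Icc.prod isCompact_Icc)
  have hKne : K.Nonempty := ⟨(0, 0, 0), ⟨⟨le_rfl, pi_pos.le⟩, ⟨by linarith, hRpos.le⟩,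
    ⟨by linarith, hRpos.le⟩⟩⟩
  have hcont : Continuous fun p => |e2 p| + |e3 p| + |f p| := by fun_prop
  obtain ⟨p0, hp0, hmin'⟩ := hKc.exists_isMinOn hKne hcont.continuousOn
  set η : ℝ := |e2 p0| + |e3 p0| + |f p0| with hη
  have hηpos : 0 < η := by
    rcases eq_or_ne (e2 p0) 0 with h2 | h2
    · rcases eq_or_ne (e3 p0) 0 with h3 | h3
      · have := abs_pos.2 (hno p0 h2 h3)
        have := abs_nonneg (e2 p0)
        have := abs_nonneg (e3 p0)
        linarith
      · have := abs_pos.2 h3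
        have := abs_nonneg (e2 p0)
        have := abs_nonneg (f p0)
        linarith
    · have := abs_pos.2 h2
      have := abs_nonneg (e3 p0)
      have := abs_nonneg (f p0)
      linarith
  have hmin : ∀ p ∈ K, η ≤ |e2 p| + |e3 p| + |f p| := fun p hp => hmin' hp
  have hη5 : 0 < η / 5 := by positivity
  obtain ⟨d2, hd2, u2⟩ := Metric.uniformContinuousOn_iff.1
    (hKc.uniformContinuousOn_of_continuous c2.continuousOn) _ hη5
  obtain ⟨d3, hd3, u3⟩ := Metric.uniformContinuousOn_iff.1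
    (hKc.uniformContinuousOn_of_continuous c3.continuousOn) _ hη5
  obtain ⟨df, hdf, uf⟩ := Metric.uniformContinuousOn_iff.1
    (hKc.uniformContinuousOn_of_continuous cf.continuousOn) _ hη5
  set d : ℝ := min d2 (min d3 df) with hd
  have hdpos : 0 < d := lt_min hd2 (lt_min hd3 hdf)
  have v2 : ∀ p ∈ K, ∀ q ∈ K, dist p q < d → dist (e2 p) (e2 q) < η / 5 :=
    fun p hp q hq h => u2 p hp q hq (h.trans_le (min_le_left _ _))
  have v3 : ∀ p ∈ K, ∀ q ∈ K, dist p q < d → dist (e3 p) (e3 q) < η / 5 :=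
    fun p hp q hq h => u3 p hp q hq (h.trans_le ((min_le_right _ _).trans (min_le_left _ _)))
  have vf : ∀ p ∈ K, ∀ q ∈ K, dist p q < d → dist (f p) (f q) < η / 5 :=
    fun p hp q hq h => uf p hp q hq (h.trans_le ((min_le_right _ _).trans (min_le_right _ _)))
  -- the mesh
  have tend : ∀ c : ℝ, Filter.Tendsto (fun N : ℕ => c / N) Filter.atTop (nhds 0) :=
    fun c => tendsto_const_div_atTop_nhds_zero_nat c
  have tendc : ∀ c : ℝ, Filter.Tendsto (fun N : ℕ => cos (c - κ * π / (2 * N)))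
      Filter.atTop (nhds (cos c)) := by
    intro c
    have h1 : Filter.Tendsto (fun N : ℕ => c - κ * π / (2 * N)) Filter.atTop (nhds (c - 0)) := by
      refine tendsto_const_nhds.sub ?_
      have := tend (κ * π / 2)
      refine this.congr fun N => ?_
      ring
    rw [sub_zero] at h1
    exact (continuous_cos.tendsto c).comp h1
  have ev1 : ∀ᶠ N : ℕ in Filter.atTop, π / N < d := (tend π).eventually_lt_const hdpos
  have ev2 : ∀ᶠ N : ℕ in Filter.atTop, cos (m * B0 - κ * A0 - κ * π / (2 * N)) < 0 :=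
    (tendc _).eventually_lt_const hC0
  have ev3 : ∀ᶠ N : ℕ in Filter.atTop, 0 < cos (m * B1 - κ * A1 - κ * π / (2 * N)) :=
    (tendc _).eventually_const_lt hC1
  have ev4 : ∀ᶠ N : ℕ in Filter.atTop, 2 ≤ N := Filter.eventually_ge_atTop 2
  obtain ⟨N, hNd, hN0, hN1, hN2⟩ := (ev1.and (ev2.and (ev3.and ev4))).exists
  have hNpos : 0 < N := by omega
  have hN' : (0 : ℝ) < N := by exact_mod_cast hNpos
  have hN2' : (2 : ℝ) ≤ N := by exact_mod_cast hN2
  obtain ⟨n', hn'⟩ : ∃ n', m * N = n' + 1 := ⟨m * N - 1, by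
    have : 0 < m * N := Nat.mul_pos hm0 hNpos
    omega⟩
  have hNn : N ≤ m * N := Nat.le_mul_of_pos_left N hm0
  have hnR : ((m * N : ℕ) : ℝ) = m * N := by push_cast; ring
  have hnpos : (0 : ℝ) < (m * N : ℕ) := by rw [hnR]; positivity
  set n : ℕ := m * N with hn
  -- the origin of the grid
  set x0 : ℝ := (-(π / N) - A0 - A1) / (2 * m) with hx0
  set y0 : ℝ := (-(π * (2 * n - 2) / N) - A0 + A1) / (2 * m) with hy0
  have hsum : A0 + m * (x0 + y0) = -(π * (n - 1 / 2) / N) := by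
    rw [hx0, hy0]
    field_simp
    ring
  have hdif : A1 + m * (x0 - y0) = π * (n - 3 / 2) / N := by
    rw [hx0, hy0]
    field_simp
    ring
  have hm1 : (1 : ℝ) ≤ m := by exact_mod_cast hm0
  have hN1' : (1 : ℝ) ≤ N := by linarith
  have hx0b : |x0| ≤ 4 + |A0| + |A1| := by
    have h1 : |-(π / N) - A0 - A1| ≤ 4 + |A0| + |A1| := by
      have h2 : |π / N| ≤ 4 := by
        rw [abs_of_pos (by positivity), div_le_iff₀ hN']
        nlinarith [pi_le_four]
      have h3 := abs_le.1 h2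
      have h4 := abs_le.1 (le_refl |A0|)
      have h5 := abs_le.1 (le_refl |A1|)
      rw [abs_le]
      constructor <;> linarith [h3.1, h3.2, h4.1, h4.2, h5.1, h5.2]
    rw [hx0, abs_div, abs_of_pos (show (0 : ℝ) < 2 * m by positivity), div_le_iff₀ (by positivity)]
    refine h1.trans (le_mul_of_one_le_right (by positivity) (by linarith))
  have hy0b : |y0| ≤ 8 + |A0| + |A1| := by
    have hle : (n : ℝ) ≤ m * N := hnR.le
    have h1 : |-(π * (2 * n - 2) / N) - A0 + A1| ≤ (8 + |A0| + |A1|) * (2 * m) := by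
      have hn1 : (1 : ℝ) ≤ n := by
        have : 1 ≤ n := by omega
        exact_mod_cast this
      have h2 : |π * (2 * n - 2) / N| ≤ 8 * m := by
        rw [abs_of_nonneg (div_nonneg (mul_nonneg pi_pos.le (by linarith)) hN'.le),
          div_le_iff₀ hN']
        have h6 : π * (2 * n - 2) ≤ 4 * (2 * n) := by
          have := pi_le_four
          have := pi_pos
          nlinarith
        have h9 : (4 : ℝ) * (2 * n) = 8 * m * N := by
          rw [hnR]
          ring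
        linarith
      have h3 := abs_le.1 h2
      have h4 := abs_le.1 (le_refl |A0|)
      have h5 := abs_le.1 (le_refl |A1|)
      have h7 : |A0| ≤ |A0| * (2 * m) := le_mul_of_one_le_right (abs_nonneg _) (by linarith)
      have h8 : |A1| ≤ |A1| * (2 * m) := le_mul_of_one_le_right (abs_nonneg _) (by linarith)
      rw [abs_le]
      constructor <;> nlinarith [h3.1, h3.2, h4.1, h4.2, h5.1, h5.2]
    rw [hy0, abs_div, abs_of_pos (show (0 : ℝ) < 2 * m by positivity), div_le_iff₀ (by positivity)]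
    exact h1
  have hin : ∀ k i j : ℕ, k ≤ N → i ≤ n → j ≤ n → gp N n x0 y0 (k, i, j) ∈ K := by
    intro k i j hk hi hj
    have hk' : (k : ℝ) ≤ N := by exact_mod_cast hk
    have hi' : (i : ℝ) ≤ n := by exact_mod_cast hi
    have hj' : (j : ℝ) ≤ n := by exact_mod_cast hj
    have hpi := pi_pos
    have hpi4 := pi_le_four
    have b1 : π * k / N ≤ π := by
      rw [div_le_iff₀ hN']
      exact mul_le_mul_of_nonneg_left hk' hpi.le
    have b2 : π * i / n ≤ π := by
      rw [div_le_iff₀ hnpos]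
      exact mul_le_mul_of_nonneg_left hi' hpi.le
    have b3 : π * j / n ≤ π := by
      rw [div_le_iff₀ hnpos]
      exact mul_le_mul_of_nonneg_left hj' hpi.le
    have c1 : 0 ≤ π * k / N := by positivity
    have c2 : 0 ≤ π * i / n := by positivity
    have c3 : 0 ≤ π * j / n := by positivity
    rw [abs_le] at hx0b hy0b
    refine ⟨⟨c1, b1⟩, ⟨?_, ?_⟩, ⟨?_, ?_⟩⟩
    · change -R ≤ x0 + π * i / n
      linarith [hx0b.1]
    · change x0 + π * i / n ≤ R
      linarith [hx0b.2]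
    · change -R ≤ y0 + π * j / n
      linarith [hy0b.1]
    · change y0 + π * j / n ≤ R
      linarith [hy0b.2]
  -- the cochains
  set X : ℕ → ℕ → ℕ → ZMod 2 := fun k i j => if 0 < f (gp N n x0 y0 (k, i, j)) then 1 else 0
    with hX
  set S : ℕ → ℕ → ℕ → ZMod 2 := fun k i j => sg (i / n + j / n) (e2 (gp N n x0 y0 (k, i, j)))
    with hS
  set T : ℕ → ℕ → ℕ → ZMod 2 := fun k i j => sg (j / n) (e3 (gp N n x0 y0 (k, i, j)))
    with hT
  have hnn : 0 < n := by omega
  have hnn1 : n / n = 1 := Nat.div_self hnn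
  have hXi : ∀ k j, X k n j = X k 0 j := by
    intro k j
    simp only [hX]
    rw [gp_x hnn, hfx]
  have hXj : ∀ k i, X k i n = X k i 0 := by
    intro k i
    simp only [hX]
    rw [gp_y hnn, hfy]
  have hSi : ∀ k j, S k n j = S k 0 j + 1 := by
    intro k j
    simp only [hS]
    rw [gp_x hnn, h2x, hnn1, Nat.zero_div, zero_add, add_comm 1, sg_succ]
  have hSj : ∀ k i, S k i n = S k i 0 + 1 := by
    intro k i
    simp only [hS]
    rw [gp_y hnn, h2y, hnn1, Nat.zero_div, add_zero, sg_succ]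
  have hTi : ∀ k j, T k n j = T k 0 j + 0 := by
    intro k j
    simp only [hT]
    rw [gp_x hnn, h3x, add_zero]
  have hTj : ∀ k i, T k i n = T k i 0 + 1 := by
    intro k i
    simp only [hT]
    rw [gp_y hnn, h3y, hnn1, Nat.zero_div]
    exact sg_succ 0 _
  have htet : ∀ k i j k' i' j' k'' i'' j'' k3 i3 j3 : ℕ, k3 ≤ N → i3 ≤ n → j3 ≤ n →
      Adj (k, i, j) (k', i', j') → Adj (k, i, j) (k'', i'', j'') →
      Adj (k', i', j') (k'', i'', j'') → Adj (k'', i'', j'') (k3, i3, j3) →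
      tet X S T (k, i, j) (k', i', j') (k'', i'', j'') (k3, i3, j3) = 0 := by
    intro k i j k' i' j' k'' i'' j'' k3 i3 j3 hk hi hj a1 a2 a3 a4
    have le : ∀ {a b : ℕ × ℕ × ℕ}, Adj a b → a.1 ≤ b.1 ∧ a.2.1 ≤ b.2.1 ∧ a.2.2 ≤ b.2.2 := by
      rintro a b ⟨h1, h2, h3⟩
      omega
    have l1 := le a1
    have l3 := le a3
    have l4 := le a4
    simp only at l1 l3 l4
    exact tet_zero (fun a => rfl) (fun a => ⟨_, rfl⟩) (fun a => ⟨_, rfl⟩) hmin v2 v3 vf
      (hin _ _ _ (by omega) (by omega) (by omega)) (hin _ _ _ (by omega) (by omega) (by omega))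
      (hin _ _ _ (by omega) (by omega) (by omega)) (hin _ _ _ hk hi hj)
      ((dist_gp hNpos hNn x0 y0 a1).trans_lt hNd) ((dist_gp hNpos hNn x0 y0 a2).trans_lt hNd)
      ((dist_gp hNpos hNn x0 y0 a3).trans_lt hNd) ((dist_gp hNpos hNn x0 y0 a4).trans_lt hNd)
  have hno3 : ∀ k < N, ∀ i < n, ∀ j < n, NoTri X S T k i j := by
    intro k hk i hi j hj
    refine ⟨?_, ?_, ?_, ?_, ?_, ?_⟩ <;>
    · apply htet _ _ _ _ _ _ _ _ _ _ _ _ (by omega) (by omega) (by omega) <;> simp [Adj]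
  have hst := stokes X S T n N 1 1 0 1 hXi hXj hSi hSj hTi hTj hno3
  -- evaluation of the two slices
  have hj0 : ∀ j < n, j / n = 0 := fun j hj => Nat.div_eq_of_lt hj
  have hn1' : n = n' + 1 := hn'
  have hnR' : (n : ℝ) = n' + 1 := by
    rw [hn1']
    push_cast
    ring
  have gp0 : ∀ i j : ℕ, gp N n x0 y0 (0, i, j) = (0, x0 + π * i / n, y0 + π * j / n) := by
    intro i j
    simp [gp]
  have gpN : ∀ i j : ℕ, gp N n x0 y0 (N, i, j) = (π, x0 + π * i / n, y0 + π * j / n) := by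
    intro i j
    simp only [gp]
    rw [Prod.mk.injEq]
    refine ⟨?_, rfl⟩
    field_simp
  have arg0 : ∀ i : ℕ, A0 + m * ((x0 + π * i / n) + (y0 + π * n' / n)) =
      π * ((i : ℝ) - 1 / 2) / N := by
    intro i
    have : A0 + m * ((x0 + π * i / n) + (y0 + π * n' / n)) =
        (A0 + m * (x0 + y0)) + m * (π * (i + n') / n) := by ring
    rw [this, hsum, hnR, ← hnR, hnR']
    have hm2 : (n' : ℝ) + 1 = m * N := by rw [← hnR', hnR]
    rw [hm2]
    have hn'' : (n' : ℝ) = m * N - 1 := by linarith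
    rw [hn'']
    field_simp
    ring
  have arg1 : ∀ i : ℕ, A1 + m * ((x0 + π * i / n) - (y0 + π * n' / n)) =
      π * ((i : ℝ) - 1 / 2) / N := by
    intro i
    have : A1 + m * ((x0 + π * i / n) - (y0 + π * n' / n)) =
        (A1 + m * (x0 - y0)) + m * (π * (i - n') / n) := by ring
    rw [this, hdif, hnR']
    have hm2 : (n' : ℝ) + 1 = m * N := by rw [← hnR', hnR]
    rw [hm2]
    have hn'' : (n' : ℝ) = m * N - 1 := by linarith
    rw [hn'']
    field_simp
    ring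
  have hs0 : slice X S T n 0 =
      if 0 < cos (m * B0 - κ * A0 - κ * π / (2 * N)) then 1 else 0 := by
    rw [← end_count m hm κ δ hκ hcop A0 B0 N hN2 hN0.ne, ← hn, hn1']
    rw [slice_eval]
    · refine Finset.sum_congr rfl fun i _ => ?_
      congr 1
      · simp only [hX]
        rw [gp0, f0, arg0]
        have : (x0 + π * i / n) + (y0 + π * n' / n) =
            (π * ((i : ℝ) - 1 / 2) / N - A0) / m := by
          rw [eq_div_iff hm'.ne']
          linarith [arg0 i]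
        rw [this]
      · simp only [hS]
        rw [gp0, gp0, e20, e20, arg0, arg0, sg_eq (sin_half_ne hNpos i),
          sg_eq (sin_half_ne hNpos (i + 1))]
    · intro i hi j hj
      simp only [hT]
      rw [gp0, e30, hj0 j (by omega), sg_zero_val]
      rfl
    · intro i hi
      simp only [hT]
      rw [gp0, e30, ← hn1', hnn1, sg_zero_val]
      rfl
  have hsN : slice X S T n N =
      if 0 < cos (m * B1 - κ * A1 - κ * π / (2 * N)) then 1 else 0 := by
    rw [← end_count m hm κ δ hκ hcop A1 B1 N hN2 hN1.ne', ← hn, hn1']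
    rw [slice_eval]
    · refine Finset.sum_congr rfl fun i _ => ?_
      congr 1
      · simp only [hX]
        rw [gpN, f1, arg1]
        have : (x0 + π * i / n) - (y0 + π * n' / n) =
            (π * ((i : ℝ) - 1 / 2) / N - A1) / m := by
          rw [eq_div_iff hm'.ne']
          linarith [arg1 i]
        rw [this]
      · simp only [hS]
        rw [gpN, gpN, e21, e21, arg1, arg1, sg_eq (sin_half_ne hNpos i),
          sg_eq (sin_half_ne hNpos (i + 1))]
    · intro i hi j hj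
      simp only [hT]
      rw [gpN, e31, hj0 j (by omega), sg_zero_val]
      rfl
    · intro i hi
      simp only [hT]
      rw [gpN, e31, ← hn1', hnn1, sg_zero_val]
      rfl
  rw [hs0, hsN, if_neg (by linarith), if_pos hN1] at hst
  exact absurd hst (by decide)

end Pool.Agent.Helper20.BandSum
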