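import Pool.Agent.Helper20.BandSum.Lin
import Pool.Agent.Helper20.BandSum.TopMain
import Pool.Agent.Helper20.BandSum.FamSym
import Pool.Agent.Helper35.BandRot
import Pool.Agent.Helper82.BandKei

/-!
# Band sums of knots with nontrivial determinant: the proof
-/

namespace Pool.Agent.Helper20.BandSum

open Real Matrix

/-- the property of the four terms of a band sum with unknotting number at most one -/
def Good (K₁ K₂ : Diagram) (b0 : ℕ) (t tx ty : Tm) : Prop :=
  ∀ (Q : Type) (op : Q → Q → Q), IsKei op → ∀ c : ℕ → Q,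
    IsCol op (split K₁ K₂) c → c b0 = eval op c t →
    op (eval op c tx) (eval op c ty) = eval op c ty →
    op (eval op c ty) (eval op c tx) = eval op c tx →
    ∀ j < (split K₁ K₂).strands, c j = c 0

theorem exists_good {K K₁ K₂ : Diagram} (hb : IsBandSum K K₁ K₂)
    (hu : ∃ k ≤ 1, UnknotsIn k K) : ∃ (b0 : ℕ) (t tx ty : Tm), b0 < K₁.strands ∧
      ¬ t.base < K₁.strands ∧ Good K₁ K₂ b0 t tx ty := by
  obtain ⟨t₁, t₂, tx, ty, h⟩ := exists_terms hb hu
  have hne : ¬ (t₁.base < K₁.strands ↔ t₂.base < K₁.strands) := by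
    intro hiff
    have hk : IsKei (fun _ b : Bool => b) := ⟨fun _ => rfl, fun _ _ => rfl, fun _ _ _ => rfl⟩
    have h1 := h Bool (fun _ b => b) hk
      (fun j => if j < K₁.strands then (fun _ => true) j else (fun _ => false) (j - K₁.strands))
      (isCol_split (isCol_const hk K₁ true) (isCol_const hk K₂ false))
      (by rw [eval_trivial, eval_trivial]; simp only [hiff]) rfl rfl K₁.strands
      (by have := K₂.pos; simp only [split]; omega)
    simp [K₁.pos] at h1
  by_cases h1 : t₁.base < K₁.strands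
  · have h2 : ¬ t₂.base < K₁.strands := fun h2 => hne ⟨fun _ => h2, fun _ => h1⟩
    obtain ⟨t, ht, h'⟩ := normalise t₁ t₂
    refine ⟨t₁.base, t, tx, ty, h1, by rwa [ht], ?_⟩
    intro Q op hop c hc he hx hy
    exact h Q op hop c hc (h' Q op hop c he) hx hy
  · have h2 : t₂.base < K₁.strands := by
      by_contra h2
      exact hne ⟨fun h => absurd h h1, fun h => absurd h h2⟩
    obtain ⟨t, ht, h'⟩ := normalise t₂ t₁
    refine ⟨t₂.base, t, tx, ty, h2, by rwa [ht], ?_⟩
    intro Q op hop c hc he hx hy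
    exact h Q op hop c hc (h' Q op hop c he).symm hx hy

/-- Linear colourings: if the two colours at the band agree and the two colours at the crossing
agree then the colouring is constant. -/
theorem good_tak {K₁ K₂ : Diagram} {b0 : ℕ} {t tx ty : Tm} (hg : Good K₁ K₂ b0 t tx ty)
    {G : Type} [AddCommGroup G] {c₁ c₂ : ℕ → G} (h₁ : IsCol tak K₁ c₁) (h₂ : IsCol tak K₂ c₂)
    (c : ℕ → G)
    (hc : c = fun j => if j < K₁.strands then c₁ j else c₂ (j - K₁.strands))
    (hb : c b0 = eval tak c t) (hx : eval tak c tx = eval tak c ty) :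
    ∀ j < K₁.strands + K₂.strands, c j = c 0 := by
  subst hc
  refine hg G tak isKei_tak _ (isCol_split h₁ h₂) hb ?_ ?_
  · rw [hx]; exact isKei_tak.idem _
  · rw [hx]; exact isKei_tak.idem _

section linear

variable {G H : Type} [AddCommGroup G] [AddCommGroup H]

/-- value of a term, the first knot coloured by `a`, the second one by `0` -/
def EA (n₁ : ℕ) (a : ℕ → G) (s : Tm) : G := eval tak (fun j => if j < n₁ then a j else 0) s

/-- value of a term, the first knot coloured by `0`, the second one by `b` -/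
def EB (n₁ : ℕ) (b : ℕ → G) (s : Tm) : G :=
  eval tak (fun j => if j < n₁ then 0 else b (j - n₁)) s

theorem eval_split (n₁ : ℕ) (a b : ℕ → G) (g : G) (s : Tm) :
    eval tak (fun j => if j < n₁ then a j else b (j - n₁) + g) s =
      EA n₁ a s + EB n₁ b s + kap n₁ s • g := by
  rw [← eval_tak_second, EA, EB, ← eval_tak_add, ← eval_tak_add]
  congr 1
  funext j
  split_ifs <;> simp

theorem EA_map (f : G →+ H) (n₁ : ℕ) (a : ℕ → G) (s : Tm) :
    f (EA n₁ a s) = EA n₁ (fun j => f (a j)) s := by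
  rw [EA, eval_tak_map, EA]
  congr 1
  funext j
  split_ifs <;> simp

theorem EB_map (f : G →+ H) (n₁ : ℕ) (b : ℕ → G) (s : Tm) :
    f (EB n₁ b s) = EB n₁ (fun j => f (b j)) s := by
  rw [EB, eval_tak_map, EB]
  congr 1
  funext j
  split_ifs <;> simp

end linear

section degenerate

variable {K₁ K₂ : Diagram} {b0 : ℕ} {t tx ty : Tm}

theorem coprime_of_good (hg : Good K₁ K₂ b0 t tx ty) (hb0 : b0 < K₁.strands) :
    IsCoprime (kap K₁.strands tx - kap K₁.strands ty) (kap K₁.strands t) := by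
  by_contra h
  rw [Int.isCoprime_iff_gcd_eq_one] at h
  obtain ⟨l, hl, hdvd⟩ := Nat.exists_prime_and_dvd h
  have := Fact.mk hl
  have h1 : (l : ℤ) ∣ kap K₁.strands tx - kap K₁.strands ty :=
    (Int.natCast_dvd_natCast.2 hdvd).trans (Int.gcd_dvd_left ..)
  have h2 : (l : ℤ) ∣ kap K₁.strands t :=
    (Int.natCast_dvd_natCast.2 hdvd).trans (Int.gcd_dvd_right ..)
  have e2 : kap K₁.strands t • (1 : ZMod l) = 0 := by
    rw [zsmul_one]
    exact (ZMod.intCast_zmod_eq_zero_iff_dvd _ _).2 h2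
  have e1 : (kap K₁.strands tx - kap K₁.strands ty) • (1 : ZMod l) = 0 := by
    rw [zsmul_one]
    exact (ZMod.intCast_zmod_eq_zero_iff_dvd _ _).2 h1
  have h3 := good_tak hg (isCol_const isKei_tak K₁ (0 : ZMod l))
    (isCol_const isKei_tak K₂ (1 : ZMod l)) (fun j => if j < K₁.strands then 0 else 1) rfl
    (by rw [eval_tak_second, e2, if_pos hb0])
    (by rw [eval_tak_second, eval_tak_second, ← sub_eq_zero, ← sub_smul, e1])
    K₁.strands (by have := K₂.pos; omega)
  simp [K₁.pos] at h3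

theorem first_ne (hg : Good K₁ K₂ b0 t tx ty) (hb0 : b0 < K₁.strands) {p : ℕ}
    {a : ℕ → ZMod p} (ha : IsCol tak K₁ a) (ha0 : a b0 = 0)
    (hne : ∃ j < K₁.strands, a j ≠ a 0) :
    kap K₁.strands t • (EA K₁.strands a tx - EA K₁.strands a ty) -
      (kap K₁.strands tx - kap K₁.strands ty) • EA K₁.strands a t ≠ 0 := by
  intro h0
  obtain ⟨s, r, hsr⟩ := coprime_of_good hg hb0
  set κt := kap K₁.strands t
  set κx := kap K₁.strands tx with hκx
  set κy := kap K₁.strands ty with hκy
  set A := EA K₁.strands a t with hA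
  set Bx := EA K₁.strands a tx with hBx
  set By := EA K₁.strands a ty with hBy
  have hsr' : (s : ZMod p) * (κx - κy) + r * κt = 1 := by
    have := congrArg (Int.cast : ℤ → ZMod p) hsr
    push_cast at this
    exact this
  simp only [zsmul_eq_mul, Int.cast_sub] at h0
  set φ : ZMod p := -(r * A + s * (Bx - By)) with hφ
  obtain ⟨j1, hj1, hne1⟩ := hne
  have hz : ∀ z : Tm, EB K₁.strands (fun _ => (0 : ZMod p)) z = 0 := by
    intro z
    have := eval_tak_second K₁.strands (0 : ZMod p) z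
    rw [smul_zero] at this
    exact this
  have hev : ∀ z : Tm, eval tak (fun j => if j < K₁.strands then a j else φ) z =
      EA K₁.strands a z + kap K₁.strands z • φ := by
    intro z
    have := eval_split K₁.strands a (fun _ => 0) φ z
    rw [hz, add_zero] at this
    rw [← this]
    simp
  have h3 := good_tak hg ha (isCol_const isKei_tak K₂ φ)
    (fun j => if j < K₁.strands then a j else φ) rfl
    (by
      rw [hev, if_pos hb0, ha0, zsmul_eq_mul]
      rw [← hA, hφ]
      linear_combination s * h0 + A * hsr')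
    (by
      rw [hev, hev, zsmul_eq_mul, zsmul_eq_mul, ← hκx, ← hκy, ← hBx, ← hBy, hφ]
      linear_combination r * h0 - (Bx - By) * hsr')
    j1 (by omega)
  rw [if_pos hj1, if_pos K₁.pos] at h3
  exact hne1 h3

theorem second_ne (hg : Good K₁ K₂ b0 t tx ty) (hb0 : b0 < K₁.strands) {q : ℕ}
    {b : ℕ → ZMod q} (hb : IsCol tak K₂ b)
    (hne : ∃ j < K₂.strands, b j ≠ b 0) :
    kap K₁.strands t • (EB K₁.strands b tx - EB K₁.strands b ty) -
      (kap K₁.strands tx - kap K₁.strands ty) • EB K₁.strands b t ≠ 0 := by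
  intro h0
  obtain ⟨s, r, hsr⟩ := coprime_of_good hg hb0
  set κt := kap K₁.strands t
  set κx := kap K₁.strands tx with hκx
  set κy := kap K₁.strands ty with hκy
  set A := EB K₁.strands b t with hA
  set Bx := EB K₁.strands b tx with hBx
  set By := EB K₁.strands b ty with hBy
  have hsr' : (s : ZMod q) * (κx - κy) + r * κt = 1 := by
    have := congrArg (Int.cast : ℤ → ZMod q) hsr
    push_cast at this
    exact this
  simp only [zsmul_eq_mul, Int.cast_sub] at h0
  set φ : ZMod q := -(r * A + s * (Bx - By)) with hφ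
  obtain ⟨j1, hj1, hne1⟩ := hne
  have hz : ∀ z : Tm, EA K₁.strands (fun _ => (0 : ZMod q)) z = 0 := by
    intro z
    have : EA K₁.strands (fun _ => (0 : ZMod q)) z =
        eval tak (fun j => if j < K₁.strands then (0 : ZMod q) else 0) z := rfl
    rw [this, eval_tak_second, smul_zero]
  have hev : ∀ z : Tm, eval tak (fun j => if j < K₁.strands then 0 else b (j - K₁.strands) + φ) z =
      EB K₁.strands b z + kap K₁.strands z • φ := by
    intro z
    have := eval_split K₁.strands (fun _ => 0) b φ z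
    rw [hz, zero_add] at this
    rw [← this]
  have hb' : IsCol tak K₂ (fun j => b j + φ) :=
    isCol_map (fun x => x + φ) (fun x y => by simp only [tak]; ring) hb
  have h3 := good_tak hg (isCol_const isKei_tak K₁ (0 : ZMod q)) hb'
    (fun j => if j < K₁.strands then 0 else b (j - K₁.strands) + φ) rfl
    (by
      rw [hev, if_pos hb0, zsmul_eq_mul]
      rw [← hA, hφ]
      linear_combination s * h0 + A * hsr')
    (by
      rw [hev, hev, zsmul_eq_mul, zsmul_eq_mul, ← hκx, ← hκy, ← hBx, ← hBy, hφ]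
      linear_combination r * h0 - (Bx - By) * hsr')
  have h4 := h3 (K₁.strands + j1) (by omega)
  have h5 := h3 (K₁.strands + 0) (by have := K₂.pos; omega)
  rw [if_neg (by omega)] at h4 h5
  rw [show K₁.strands + j1 - K₁.strands = j1 by omega] at h4
  rw [show K₁.strands + 0 - K₁.strands = 0 by omega, ← h4] at h5
  exact hne1 (add_right_cancel h5).symm

end degenerate

section angles

/-- the integer lift of the value of a term -/
theorem eval_real_A {p : ℕ} [NeZero p] (n₁ : ℕ) (a : ℕ → ZMod p) (s : Tm) :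
    EA n₁ (fun j => ang (a j)) s = 2 * π / p * (EA n₁ (fun j => ((a j).val : ℤ)) s : ℤ) ∧
      ((EA n₁ (fun j => ((a j).val : ℤ)) s : ℤ) : ZMod p) = EA n₁ a s := by
  constructor
  · have h := EA_map ((AddMonoidHom.mulLeft (2 * π / p : ℝ)).comp (Int.castAddHom ℝ)) n₁
      (fun j => ((a j).val : ℤ)) s
    simp only [AddMonoidHom.comp_apply, Int.coe_castAddHom, AddMonoidHom.coe_mulLeft] at h
    rw [h]
    congr 1
    funext j
    simp only [ang]
    push_cast
    ring
  · have h := EA_map (Int.castAddHom (ZMod p)) n₁ (fun j => ((a j).val : ℤ)) s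
    simp only [Int.coe_castAddHom] at h
    rw [h]
    congr 1
    funext j
    simp

theorem eval_real_B {p : ℕ} [NeZero p] (n₁ : ℕ) (a : ℕ → ZMod p) (s : Tm) :
    EB n₁ (fun j => ang (a j)) s = 2 * π / p * (EB n₁ (fun j => ((a j).val : ℤ)) s : ℤ) ∧
      ((EB n₁ (fun j => ((a j).val : ℤ)) s : ℤ) : ZMod p) = EB n₁ a s := by
  constructor
  · have h := EB_map ((AddMonoidHom.mulLeft (2 * π / p : ℝ)).comp (Int.castAddHom ℝ)) n₁
      (fun j => ((a j).val : ℤ)) s
    simp only [AddMonoidHom.comp_apply, Int.coe_castAddHom, AddMonoidHom.coe_mulLeft] at h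
    rw [h]
    congr 1
    funext j
    simp only [ang]
    push_cast
    ring
  · have h := EB_map (Int.castAddHom (ZMod p)) n₁ (fun j => ((a j).val : ℤ)) s
    simp only [Int.coe_castAddHom] at h
    rw [h]
    congr 1
    funext j
    simp

theorem EB_neg {G : Type} [AddCommGroup G] (n₁ : ℕ) (b : ℕ → G) (s : Tm) :
    EB n₁ (fun j => -b j) s = -EB n₁ b s := by
  have h := EB_map (-(AddMonoidHom.id G)) n₁ b s
  simp only [AddMonoidHom.neg_apply, AddMonoidHom.id_apply] at h
  exact h.symm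

/-- the cosine of the total angle depends on the residue classes only -/
theorem cos_residue {p q : ℕ} [NeZero p] [NeZero q] {c1 c2 : ℤ} {x : ZMod p} {y : ZMod q}
    (h1 : (c1 : ZMod p) = x) (h2 : (c2 : ZMod q) = y) (ε : ℤ) :
    cos (2 * π / p * c1 + ε * (2 * π / q * c2)) =
      cos (2 * π * ((x.val : ℝ) / p) + ε * (2 * π * ((y.val : ℝ) / q))) := by
  have hp : (p : ℝ) ≠ 0 := by exact_mod_cast NeZero.ne p
  have hq : (q : ℝ) ≠ 0 := by exact_mod_cast NeZero.ne q
  have k1 : (p : ℤ) ∣ c1 - x.val := by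
    rw [← ZMod.intCast_zmod_eq_zero_iff_dvd]
    push_cast
    rw [h1]
    simp
  have k2 : (q : ℤ) ∣ c2 - y.val := by
    rw [← ZMod.intCast_zmod_eq_zero_iff_dvd]
    push_cast
    rw [h2]
    simp
  obtain ⟨u, hu⟩ := k1
  obtain ⟨v, hv⟩ := k2
  have hu' : (c1 : ℝ) = x.val + p * u := by
    have : c1 = x.val + p * u := by linarith
    rw [this]
    push_cast
    ring
  have hv' : (c2 : ℝ) = y.val + q * v := by
    have : c2 = y.val + q * v := by linarith
    rw [this]
    push_cast
    ring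
  rw [hu', hv']
  have : 2 * π / p * (x.val + p * u) + ε * (2 * π / q * (y.val + q * v)) =
      2 * π * ((x.val : ℝ) / p) + ε * (2 * π * ((y.val : ℝ) / q)) +
        ((u + ε * v : ℤ) : ℝ) * (2 * π) := by
    push_cast
    field_simp
    ring
  rw [this, cos_add_int_mul_two_pi]

end angles

section core

variable {K₁ K₂ : Diagram} {b0 : ℕ} {t tx ty : Tm}

/-- the analytic core: there is a point of the family where the band relation holds and the two
colours at the crossing are orthogonal -/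
theorem exists_point {p q : ℕ} [NeZero p] [NeZero q] (n₁ : ℕ) (t tx ty : Tm)
    (ht : ¬ t.base < n₁) (hcop : IsCoprime (kap n₁ tx - kap n₁ ty) (kap n₁ t))
    (a : ℕ → ZMod p) (b : ℕ → ZMod q)
    (h1 : 1 / 6 ≤ ((kap n₁ t • (EA n₁ a tx - EA n₁ a ty) -
      (kap n₁ tx - kap n₁ ty) • EA n₁ a t).val : ℝ) / p)
    (h1' : ((kap n₁ t • (EA n₁ a tx - EA n₁ a ty) -
      (kap n₁ tx - kap n₁ ty) • EA n₁ a t).val : ℝ) / p ≤ 1 / 3)
    (h2 : 1 / 6 ≤ ((kap n₁ t • (EB n₁ b tx - EB n₁ b ty) -
      (kap n₁ tx - kap n₁ ty) • EB n₁ b t).val : ℝ) / q)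
    (h2' : ((kap n₁ t • (EB n₁ b tx - EB n₁ b ty) -
      (kap n₁ tx - kap n₁ ty) • EB n₁ b t).val : ℝ) / q ≤ 1 / 3) :
    ∃ θ φ ψ : ℝ,
      (F n₁ (fun j => ang (a j)) (fun j => ang (b (j - n₁))) t θ φ ψ = ![1, 0, 0] ∨
        F n₁ (fun j => ang (a j)) (fun j => ang (b (j - n₁))) t θ φ ψ = -![1, 0, 0]) ∧
      F n₁ (fun j => ang (a j)) (fun j => ang (b (j - n₁))) tx θ φ ψ ⬝ᵥ
        F n₁ (fun j => ang (a j)) (fun j => ang (b (j - n₁))) ty θ φ ψ = 0 := by
  set α : ℕ → ℝ := fun j => ang (a j) with hα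
  set β : ℕ → ℝ := fun j => ang (b (j - n₁)) with hβ
  set κt := kap n₁ t with hκt
  set κx := kap n₁ tx with hκx
  set κy := kap n₁ ty with hκy
  -- real angles
  have hodd : Odd κt := kap_odd ht
  set ra : Tm → ℝ := fun s => EA n₁ α s with hra
  set rb : Tm → ℝ := fun s => EB n₁ (fun j => ang (b j)) s with hrb
  have hev0 : ∀ (s : Tm) (x : ℝ), eval tak (fun j => if j < n₁ then α j else β j + x) s =
      ra s + rb s + kap n₁ s * x := by
    intro s x
    have := eval_split n₁ α (fun j => ang (b j)) x s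
    rw [zsmul_eq_mul] at this
    exact this
  have hev1 : ∀ (s : Tm) (x : ℝ), eval tak (fun j => if j < n₁ then α j else -β j + x) s =
      ra s - rb s + kap n₁ s * x := by
    intro s x
    have := eval_split n₁ α (fun j => -ang (b j)) x s
    rw [zsmul_eq_mul, EB_neg] at this
    rw [sub_eq_add_neg]
    exact this
  -- the sign of `κt`
  obtain ⟨m, σ, hσ, hm⟩ : ∃ (m : ℕ) (σ : ℤ), (σ = 1 ∨ σ = -1) ∧ κt = σ * m := by
    rcases Int.natAbs_eq κt with h | h
    · exact ⟨κt.natAbs, 1, Or.inl rfl, by rw [one_mul]; exact h⟩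
    · exact ⟨κt.natAbs, -1, Or.inr rfl, by rw [neg_one_mul]; exact h⟩
  have hmodd : Odd m := by
    rw [hm] at hodd
    have := (Int.odd_mul.1 hodd).2
    exact_mod_cast this
  have hσσ : (σ : ℝ) * σ = 1 := by rcases hσ with h | h <;> rw [h] <;> norm_num
  have hmr : (m : ℝ) = σ * κt := by
    rw [hm]
    push_cast
    rw [← mul_assoc, hσσ, one_mul]
  have hσsin : ∀ x : ℝ, σ * sin x = sin (σ * x) := by
    intro x
    rcases hσ with h | h <;> rw [h] <;> simp
  have hσcos : ∀ x : ℝ, cos x = cos (σ * x) := by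
    intro x
    rcases hσ with h | h <;> rw [h] <;> simp
  set κ : ℤ := κx - κy with hκ
  have hcop' : IsCoprime κ (m : ℤ) := by
    rcases hσ with h | h
    · rw [hm, h, one_mul] at hcop
      exact hcop
    · rw [hm, h, neg_one_mul] at hcop
      exact (IsCoprime.neg_right_iff _ _).1 hcop
  set δ : ℕ := if Even κ then 0 else 1 with hδ
  have hκδ : Even (κ + δ * m) := by
    rw [hδ]
    split_ifs with h
    · simpa using h
    · rw [Int.not_even_iff_odd] at h
      have : Odd (m : ℤ) := by exact_mod_cast hmodd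
      simpa using h.add_odd this
  have par : ((tx.base < n₁ ↔ ty.base < n₁) ∧ δ = 0) ∨ (¬ (tx.base < n₁ ↔ ty.base < n₁) ∧ δ = 1) := by
    have hx := kap_parity n₁ tx
    have hy := kap_parity n₁ ty
    rw [← hκx] at hx
    rw [← hκy] at hy
    by_cases h1 : tx.base < n₁ <;> by_cases h2 : ty.base < n₁ <;>
      simp only [h1, h2, if_true, if_false] at hx hy
    · left
      refine ⟨by simp [h1, h2], ?_⟩
      rw [hδ, if_pos]
      rw [Int.even_iff]
      omega
    · right
      refine ⟨by simp [h1, h2], ?_⟩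
      rw [hδ, if_neg]
      rw [Int.even_iff]
      omega
    · right
      refine ⟨by simp [h1, h2], ?_⟩
      rw [hδ, if_neg]
      rw [Int.even_iff]
      omega
    · left
      refine ⟨by simp [h1, h2], ?_⟩
      rw [hδ, if_pos]
      rw [Int.even_iff]
      omega
  -- the angles
  obtain ⟨X, hX⟩ : ∃ X : ZMod p, X = κt • (EA n₁ a tx - EA n₁ a ty) - κ • EA n₁ a t := ⟨_, rfl⟩
  obtain ⟨Y, hY⟩ : ∃ Y : ZMod q, Y = κt • (EB n₁ b tx - EB n₁ b ty) - κ • EB n₁ b t := ⟨_, rfl⟩
  rw [← hX] at h1 h1'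
  rw [← hY] at h2 h2'
  have hangle : ∀ ε : ℤ, cos (κt * ((ra tx + ε * rb tx) - (ra ty + ε * rb ty)) -
      κ * (ra t + ε * rb t)) =
      cos (2 * π * ((X.val : ℝ) / p) + ε * (2 * π * ((Y.val : ℝ) / q))) := by
    intro ε
    obtain ⟨ax, ax'⟩ := eval_real_A n₁ a tx
    obtain ⟨ay, ay'⟩ := eval_real_A n₁ a ty
    obtain ⟨at', at''⟩ := eval_real_A n₁ a t
    obtain ⟨bx, bx'⟩ := eval_real_B n₁ b tx
    obtain ⟨by', by''⟩ := eval_real_B n₁ b ty
    obtain ⟨bt, bt'⟩ := eval_real_B n₁ b t
    rw [← cos_residue (c1 := κt * (EA n₁ (fun j => ((a j).val : ℤ)) tx -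
        EA n₁ (fun j => ((a j).val : ℤ)) ty) - κ * EA n₁ (fun j => ((a j).val : ℤ)) t)
      (c2 := κt * (EB n₁ (fun j => ((b j).val : ℤ)) tx -
        EB n₁ (fun j => ((b j).val : ℤ)) ty) - κ * EB n₁ (fun j => ((b j).val : ℤ)) t)
      (x := X) (y := Y)]
    · congr 1
      simp only [hra, hrb]
      rw [ax, ay, at', bx, by', bt]
      push_cast
      ring
    · push_cast
      rw [ax', ay', at'', hX, zsmul_eq_mul, zsmul_eq_mul]
    · push_cast
      rw [bx', by'', bt', hY, zsmul_eq_mul, zsmul_eq_mul]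
  have hpi := pi_pos
  have hneg : cos (κt * ((ra tx + rb tx) - (ra ty + rb ty)) - κ * (ra t + rb t)) < 0 := by
    have := hangle 1
    simp only [Int.cast_one, one_mul] at this
    rw [this]
    apply cos_neg_of_pi_div_two_lt_of_lt <;> nlinarith
  have hpos : 0 < cos (κt * ((ra tx - rb tx) - (ra ty - rb ty)) - κ * (ra t - rb t)) := by
    have := hangle (-1)
    simp only [Int.cast_neg, Int.cast_one, neg_one_mul, ← sub_eq_add_neg] at this
    rw [this]
    apply cos_pos_of_mem_Ioo
    constructor <;> nlinarith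
  obtain ⟨⟨θ, φ, ψ⟩, hz2, hz3, hzf⟩ := top_lemma m hmodd κ δ hκδ hcop'
    (σ * (ra t + rb t)) (σ * (ra t - rb t)) ((ra tx + rb tx) - (ra ty + rb ty))
    ((ra tx - rb tx) - (ra ty - rb ty))
    (fun p => σ * F n₁ α β t p.1 p.2.1 p.2.2 1) (fun p => F n₁ α β t p.1 p.2.1 p.2.2 2)
    (fun p => (F n₁ α β tx p.1 p.2.1 p.2.2 ⬝ᵥ F n₁ α β ty p.1 p.2.1 p.2.2) *
      (F n₁ α β t p.1 p.2.1 p.2.2 0) ^ δ)
    (continuous_const.mul ((continuous_apply 1).comp (F_continuous t)))
    ((continuous_apply 2).comp (F_continuous t))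
    (by
      have c1 : ∀ (s : Tm) (i : Fin 3),
          Continuous fun p : ℝ × ℝ × ℝ => F n₁ α β s p.1 p.2.1 p.2.2 i :=
        fun s i => (continuous_apply i).comp (F_continuous s)
      simp only [dotProduct, Fin.sum_univ_three]
      have := c1 tx 0; have := c1 tx 1; have := c1 tx 2
      have := c1 ty 0; have := c1 ty 1; have := c1 ty 2; have := c1 t 0
      fun_prop)
    (by
      intro θ φ ψ
      simp only
      rw [F_x, if_neg ht]
      simp)
    (by
      intro θ φ ψ
      simp only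
      rw [F_y, if_neg ht]
      simp)
    (by
      intro θ φ ψ
      simp only
      rw [F_x, if_neg ht]
      simp)
    (by
      intro θ φ ψ
      simp only
      rw [F_y, if_neg ht]
      simp)
    (by
      intro θ φ ψ
      simp only
      rw [F_x t, F_x tx, F_x ty, if_neg ht]
      rcases par with ⟨h, h'⟩ | ⟨h, h'⟩ <;> rw [h'] <;> by_cases h3 : tx.base < n₁ <;>
        by_cases h4 : ty.base < n₁ <;> simp only [h3, h4, iff_true, not_true, iff_false,
          not_false_iff] at h <;>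
        simp only [h3, h4, if_true, if_false, dotProduct, Fin.sum_univ_three] <;> simp <;> ring)
    (by
      intro θ φ ψ
      simp only
      rw [F_y t, F_y tx, F_y ty, if_neg ht]
      rcases par with ⟨h, h'⟩ | ⟨h, h'⟩ <;> rw [h'] <;> by_cases h3 : tx.base < n₁ <;>
        by_cases h4 : ty.base < n₁ <;> simp only [h3, h4, iff_true, not_true, iff_false,
          not_false_iff] at h <;>
        simp only [h3, h4, if_true, if_false, dotProduct, Fin.sum_univ_three] <;> simp <;> ring)
    (by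
      intro φ ψ
      simp only
      rw [F_zero, hev0, hmr]
      simp only [cons_val_one, cons_val_zero]
      rw [hσsin]
      congr 1
      ring)
    (by
      intro φ ψ
      simp only
      rw [F_pi, hev1, hmr]
      simp only [cons_val_one, cons_val_zero]
      rw [hσsin]
      congr 1
      ring)
    (by
      intro φ ψ
      simp only
      rw [F_zero]
      simp)
    (by
      intro φ ψ
      simp only
      rw [F_pi]
      simp)
    (by
      intro φ ψ
      simp only
      rw [F_zero, F_zero, F_zero, hev0, hev0, hev0]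
      simp only [dotProduct, Fin.sum_univ_three, cons_val_zero, cons_val_one, cons_val]
      congr 1
      · rw [show (ra tx + rb tx) - (ra ty + rb ty) + (κ : ℝ) * (φ + ψ) =
          (ra tx + rb tx + κx * (φ + ψ)) - (ra ty + rb ty + κy * (φ + ψ)) by
            rw [hκ]; push_cast; ring, cos_sub]
        ring
      · congr 1
        rw [hσcos, hmr]
        congr 1
        ring)
    (by
      intro φ ψ
      simp only
      rw [F_pi, F_pi, F_pi, hev1, hev1, hev1]
      simp only [dotProduct, Fin.sum_univ_three, cons_val_zero, cons_val_one, cons_val]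
      congr 1
      · rw [show (ra tx - rb tx) - (ra ty - rb ty) + (κ : ℝ) * (φ - ψ) =
          (ra tx - rb tx + κx * (φ - ψ)) - (ra ty - rb ty + κy * (φ - ψ)) by
            rw [hκ]; push_cast; ring, cos_sub]
        ring
      · congr 1
        rw [hσcos, hmr]
        congr 1
        ring)
    (by
      rw [hmr, show σ * κt * ((ra tx + rb tx) - (ra ty + rb ty)) - κ * (σ * (ra t + rb t)) =
        σ * (κt * ((ra tx + rb tx) - (ra ty + rb ty)) - κ * (ra t + rb t)) by ring, ← hσcos]
      exact hneg)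
    (by
      rw [hmr, show σ * κt * ((ra tx - rb tx) - (ra ty - rb ty)) - κ * (σ * (ra t - rb t)) =
        σ * (κt * ((ra tx - rb tx) - (ra ty - rb ty)) - κ * (ra t - rb t)) by ring, ← hσcos]
      exact hpos)
  refine ⟨θ, φ, ψ, ?_⟩
  simp only at hz2 hz3 hzf
  have hσ0 : (σ : ℝ) ≠ 0 := by
    intro h
    rw [h] at hσσ
    norm_num at hσσ
  have hz2' : F n₁ α β t θ φ ψ 1 = 0 := (mul_eq_zero.1 hz2).resolve_left hσ0
  have hunit := F_unit (n₁ := n₁) (α := α) (β := β) t θ φ ψ
  simp only [dotProduct, Fin.sum_univ_three, hz2', hz3] at hunit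
  have h0 : F n₁ α β t θ φ ψ 0 = 1 ∨ F n₁ α β t θ φ ψ 0 = -1 :=
    mul_self_eq_one_iff.1 (by linarith)
  constructor
  · rcases h0 with h | h
    · left
      funext i
      fin_cases i
      · exact h
      · exact hz2'
      · exact hz3
    · right
      funext i
      fin_cases i
      · simpa using h
      · simpa using hz2'
      · simpa using hz3
  · have h5 : (F n₁ α β t θ φ ψ 0) ^ δ ≠ 0 := by
      apply pow_ne_zero
      rcases h0 with h | h <;> rw [h] <;> norm_num
    exact (mul_eq_zero.1 hzf).resolve_right h5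

end core

/-- No four terms of this kind exist if both knots have nonconstant Fox colourings modulo odd
primes. -/
theorem good_false {K₁ K₂ : Diagram} {b0 : ℕ} {t tx ty : Tm} (hb0 : b0 < K₁.strands)
    (ht : ¬ t.base < K₁.strands) (hg : Good K₁ K₂ b0 t tx ty) {p q : ℕ} (hp : p.Prime)
    (hp2 : p ≠ 2) (hq : q.Prime) (hq2 : q ≠ 2) (h1 : FoxColourable p K₁)
    (h2 : FoxColourable q K₂) : False := by
  have hpf := Fact.mk hp
  have hqf := Fact.mk hq
  have : NeZero p := ⟨hp.ne_zero⟩
  have : NeZero q := ⟨hq.ne_zero⟩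
  set n₁ := K₁.strands with hn₁
  obtain ⟨a0, ha0, j1, hj1, hne1⟩ := h1
  obtain ⟨b1, hb1, j2, hj2, hne2⟩ := h2
  -- the colouring of the first knot vanishes at `b0`
  set a2 : ℕ → ZMod p := fun j => a0 j - a0 b0 with ha2
  have ha2c : IsCol tak K₁ a2 :=
    isCol_map (fun x => x - a0 b0) (fun x y => by simp only [tak]; ring) ha0
  have hC1 := first_ne hg hb0 ha2c (by simp [ha2]) ⟨j1, hj1, fun h => hne1 (by
    simpa [ha2] using h)⟩
  have hC2 := second_ne hg hb0 hb1 ⟨j2, hj2, hne2⟩
  obtain ⟨jj, hjj1, hjj2⟩ := Pool.Agent.Helper35.BandEnd.exists_mul_val p hp2 _ hC1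
  obtain ⟨kk, hkk1, hkk2⟩ := Pool.Agent.Helper35.BandEnd.exists_mul_val q hq2 _ hC2
  have hjj0 : jj ≠ 0 := by
    rintro rfl
    rw [zero_mul, ZMod.val_zero] at hjj1
    norm_num at hjj1
  set a : ℕ → ZMod p := fun j => jj * a2 j with ha
  set b : ℕ → ZMod q := fun j => kk * b1 j with hb
  have hac : IsCol tak K₁ a :=
    isCol_map (fun x => jj * x) (fun x y => by simp only [tak]; ring) ha2c
  have hbc : IsCol tak K₂ b :=
    isCol_map (fun x => kk * x) (fun x y => by simp only [tak]; ring) hb1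
  have hEA : ∀ s, EA n₁ a s = jj * EA n₁ a2 s := fun s =>
    (EA_map (AddMonoidHom.mulLeft jj) n₁ a2 s).symm
  have hEB : ∀ s, EB n₁ b s = kk * EB n₁ b1 s := fun s =>
    (EB_map (AddMonoidHom.mulLeft kk) n₁ b1 s).symm
  have hX : kap n₁ t • (EA n₁ a tx - EA n₁ a ty) - (kap n₁ tx - kap n₁ ty) • EA n₁ a t =
      jj * (kap n₁ t • (EA n₁ a2 tx - EA n₁ a2 ty) -
        (kap n₁ tx - kap n₁ ty) • EA n₁ a2 t) := by
    rw [hEA, hEA, hEA]
    simp only [zsmul_eq_mul]
    ring
  have hY : kap n₁ t • (EB n₁ b tx - EB n₁ b ty) - (kap n₁ tx - kap n₁ ty) • EB n₁ b t =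
      kk * (kap n₁ t • (EB n₁ b1 tx - EB n₁ b1 ty) -
        (kap n₁ tx - kap n₁ ty) • EB n₁ b1 t) := by
    rw [hEB, hEB, hEB]
    simp only [zsmul_eq_mul]
    ring
  obtain ⟨θ, φ, ψ, hF, hdot⟩ := exists_point n₁ t tx ty ht (coprime_of_good hg hb0) a b
    (by rw [hX]; exact hjj1) (by rw [hX]; exact hjj2) (by rw [hY]; exact hkk1)
    (by rw [hY]; exact hkk2)
  -- the colouring by rotations
  set α : ℕ → ℝ := fun j => ang (a j) with hα
  set β : ℕ → ℝ := fun j => ang (b (j - n₁)) with hβ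
  set c : ℕ → Inv3 := fun j => rot ⟨fam n₁ α β θ φ ψ j, F_unit (Tm.var j) θ φ ψ⟩ with hc
  have hcc : c = fun j => if j < K₁.strands then zrot 0 0 0 (a j)
      else zrot θ φ ψ (b (j - K₁.strands)) := by
    funext j
    rw [← hn₁]
    by_cases hj : j < n₁
    · rw [if_pos hj]
      simp only [hc, zrot]
      congr 2
      simp [fam, hj, wv, hα]
    · rw [if_neg hj]
      simp only [hc, zrot]
      congr 2
      simp [fam, hj, wv, hβ]
  have hcol : IsCol mop (split K₁ K₂) c := by
    rw [hcc]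
    exact isCol_split (isCol_map (zrot 0 0 0) (zrot_tak 0 0 0) hac)
      (isCol_map (zrot θ φ ψ) (zrot_tak θ φ ψ) hbc)
  have hab0 : a b0 = 0 := by simp [ha, ha2]
  have hband : c b0 = eval mop c t := by
    rw [eval_rot]
    simp only [hc]
    apply rot_eq
    have h3 : fam n₁ α β θ φ ψ b0 = ![1, 0, 0] := by
      simp [fam, hb0, hα, hab0, ang]
    change fam n₁ α β θ φ ψ b0 = F n₁ α β t θ φ ψ ∨ fam n₁ α β θ φ ψ b0 = -F n₁ α β t θ φ ψ
    rw [h3]
    rcases hF with h | h
    · left; exact h.symm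
    · right; rw [h, neg_neg]
  have hx : mop (eval mop c tx) (eval mop c ty) = eval mop c ty := by
    rw [eval_rot, eval_rot]
    exact rot_comm hdot
  have hy : mop (eval mop c ty) (eval mop c tx) = eval mop c tx := by
    rw [eval_rot, eval_rot]
    exact rot_comm (by rw [dotProduct_comm]; exact hdot)
  have h3 := hg Inv3 mop isKei_mop c hcol hband hx hy j1 (by simp only [split]; omega)
  rw [hcc] at h3
  simp only [← hn₁] at h3
  rw [if_pos hj1, if_pos K₁.pos] at h3
  have h4 := zrot_inj (hp.odd_of_ne_two hp2) h3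
  have h5 := mul_left_cancel₀ hjj0 h4
  simp only [ha2, sub_left_inj] at h5
  exact hne1 h5

/-- **Main theorem.** -/
theorem main {K K₁ K₂ : Diagram} (hb : IsBandSum K K₁ K₂) (h₁ : ∃ n, n ≠ 0 ∧ FoxColourable n K₁)
    (h₂ : ∃ n, n ≠ 0 ∧ FoxColourable n K₂) : 2 ≤ unknottingNumber K := by
  rw [unknottingNumber]
  refine le_iInf fun k => le_iInf fun hk => ?_
  by_contra hlt
  have hk1 : k ≤ 1 := by
    rw [not_le] at hlt
    have : k < 2 := by exact_mod_cast hlt
    omega
  obtain ⟨b0, t, tx, ty, hb0, ht, hg⟩ := exists_good hb ⟨k, hk1, hk⟩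
  obtain ⟨n, hn, h₁⟩ := h₁
  obtain ⟨n', hn', h₂⟩ := h₂
  obtain ⟨p, hp, hp2, h1⟩ := foxColourable_prime hb.knot₁ hn h₁
  obtain ⟨q, hq, hq2, h2⟩ := foxColourable_prime hb.knot₂ hn' h₂
  exact good_false hb0 ht hg hp hp2 hq hq2 h1 h2

end Pool.Agent.Helper20.BandSum
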