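import Pool.Agent.Helper20.BandSum.Model

/-!
# The three parameter family of vector valued colourings
-/

namespace Pool.Agent.Helper20.BandSum

open Real Matrix

/-- rotation by `π` about `X` (for unit vectors `X`) -/
def vop (X Y : Fin 3 → ℝ) : Fin 3 → ℝ := (2 * (X ⬝ᵥ Y)) • X - Y

/-- The family: the strands `j < n₁` carry the constant vector with angle `α j` in the
horizontal plane, the other ones the vector with angle `β j` in a plane moved by the rotation
with Euler angles `ψ`, `θ`, `φ`. -/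
noncomputable def fam (n₁ : ℕ) (α β : ℕ → ℝ) (θ φ ψ : ℝ) (j : ℕ) : Fin 3 → ℝ :=
  if j < n₁ then ![cos (α j), sin (α j), 0]
  else ![cos φ * cos (β j + ψ) - sin φ * (cos θ * sin (β j + ψ)),
    sin φ * cos (β j + ψ) + cos φ * (cos θ * sin (β j + ψ)), sin θ * sin (β j + ψ)]

/-- the rightmost variable of a term -/
def Tm.base : Tm → ℕ
  | .var j => j
  | .op _ t => t.base

/-- the value of a term in the family -/
noncomputable def F (n₁ : ℕ) (α β : ℕ → ℝ) (t : Tm) (θ φ ψ : ℝ) : Fin 3 → ℝ :=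
  eval vop (fam n₁ α β θ φ ψ) t

variable {n₁ : ℕ} {α β : ℕ → ℝ}

theorem vop_dot {X Y : Fin 3 → ℝ} (hX : X ⬝ᵥ X = 1) : vop X Y ⬝ᵥ vop X Y = Y ⬝ᵥ Y := by
  simp only [vop, dotProduct, Fin.sum_univ_three, Pi.sub_apply, Pi.smul_apply, smul_eq_mul] at *
  linear_combination (4 * (X 0 * Y 0 + X 1 * Y 1 + X 2 * Y 2) ^ 2) * hX

theorem F_unit (t : Tm) (θ φ ψ : ℝ) : F n₁ α β t θ φ ψ ⬝ᵥ F n₁ α β t θ φ ψ = 1 := by
  induction t with
  | var j =>
    simp only [F, eval, fam, dotProduct, Fin.sum_univ_three]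
    split_ifs
    · simp only [cons_val_zero, cons_val_one, cons_val]
      linear_combination sin_sq_add_cos_sq (α j)
    · simp only [cons_val_zero, cons_val_one, cons_val]
      linear_combination (cos (β j + ψ)) ^ 2 * sin_sq_add_cos_sq φ +
        (cos θ * sin (β j + ψ)) ^ 2 * sin_sq_add_cos_sq φ +
        (sin (β j + ψ)) ^ 2 * sin_sq_add_cos_sq θ + sin_sq_add_cos_sq (β j + ψ)
  | op s t ihs iht =>
    change vop (F n₁ α β s θ φ ψ) (F n₁ α β t θ φ ψ) ⬝ᵥ
      vop (F n₁ α β s θ φ ψ) (F n₁ α β t θ φ ψ) = 1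
    rw [vop_dot ihs, iht]

theorem F_continuous (t : Tm) :
    Continuous fun x : ℝ × ℝ × ℝ => F n₁ α β t x.1 x.2.1 x.2.2 := by
  induction t with
  | var j =>
    simp only [F, eval, fam]
    split_ifs
    · exact continuous_const
    · refine continuous_pi fun i => ?_
      fin_cases i <;> simp <;> fun_prop
  | op s t ihs iht =>
    change Continuous fun x : ℝ × ℝ × ℝ => vop (F n₁ α β s x.1 x.2.1 x.2.2)
      (F n₁ α β t x.1 x.2.1 x.2.2)
    simp only [vop, dotProduct, Fin.sum_univ_three]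
    refine continuous_pi fun i => ?_
    have h : ∀ i, Continuous fun x : ℝ × ℝ × ℝ => F n₁ α β s x.1 x.2.1 x.2.2 i :=
      fun i => (continuous_apply i).comp ihs
    have h' : ∀ i, Continuous fun x : ℝ × ℝ × ℝ => F n₁ α β t x.1 x.2.1 x.2.2 i :=
      fun i => (continuous_apply i).comp iht
    simp only [Pi.sub_apply, Pi.smul_apply, smul_eq_mul]
    have := h 0; have := h 1; have := h 2; have := h' 0; have := h' 1; have := h' 2
    have := h i; have := h' i
    fun_prop

end Pool.Agent.Helper20.BandSum
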