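import Mathlib

/-!
# A mod 2 Stokes formula on a three dimensional grid

`X`, `S`, `T` are functions on the grid points `(k, i, j)` with values in `ZMod 2`. The number
`slice k` is the value of the cochain `X ∪ δS ∪ δT` on the torus at height `k`.
-/

namespace Pool.Agent.Helper20.BandSum

variable (X S T : ℕ → ℕ → ℕ → ZMod 2)

/-- the cochain `X ∪ δS ∪ δT` on a triangle -/
def tri (a b c : ℕ × ℕ × ℕ) : ZMod 2 :=
  X a.1 a.2.1 a.2.2 * (S a.1 a.2.1 a.2.2 + S b.1 b.2.1 b.2.2) *
    (T b.1 b.2.1 b.2.2 + T c.1 c.2.1 c.2.2)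

/-- the cochain `δX ∪ δS ∪ δT` on a tetrahedron -/
def tet (a b c d : ℕ × ℕ × ℕ) : ZMod 2 :=
  (X a.1 a.2.1 a.2.2 + X b.1 b.2.1 b.2.2) * (S b.1 b.2.1 b.2.2 + S c.1 c.2.1 c.2.2) *
    (T c.1 c.2.1 c.2.2 + T d.1 d.2.1 d.2.2)

/-- the value on the two triangles of a square in the slice `k` -/
def sq (k i j : ℕ) : ZMod 2 :=
  tri X S T (k, i, j) (k, i + 1, j) (k, i + 1, j + 1) +
    tri X S T (k, i, j) (k, i, j + 1) (k, i + 1, j + 1)

/-- the value on the slice `k` -/
def slice (n k : ℕ) : ZMod 2 := ∑ i ∈ Finset.range n, ∑ j ∈ Finset.range n, sq X S T k i j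

theorem tet_eq (a b c d : ℕ × ℕ × ℕ) :
    tet X S T a b c d = tri X S T b c d + tri X S T a c d + tri X S T a b d + tri X S T a b c := by
  simp only [tet, tri]
  generalize X a.1 a.2.1 a.2.2 = x0
  generalize X b.1 b.2.1 b.2.2 = x1
  generalize S a.1 a.2.1 a.2.2 = s0
  generalize S b.1 b.2.1 b.2.2 = s1
  generalize S c.1 c.2.1 c.2.2 = s2
  generalize T b.1 b.2.1 b.2.2 = t1
  generalize T c.1 c.2.1 c.2.2 = t2
  generalize T d.1 d.2.1 d.2.2 = t3
  revert x0 x1 s0 s1 s2 t1 t2 t3
  decide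

/-- side faces in the first direction -/
def fi (k i j : ℕ) : ZMod 2 :=
  tri X S T (k, i, j) (k + 1, i, j) (k + 1, i, j + 1) +
    tri X S T (k, i, j) (k, i, j + 1) (k + 1, i, j + 1)

/-- side faces in the second direction -/
def fj (k i j : ℕ) : ZMod 2 :=
  tri X S T (k, i, j) (k + 1, i, j) (k + 1, i + 1, j) +
    tri X S T (k, i, j) (k, i + 1, j) (k + 1, i + 1, j)

/-- the six tetrahedra of a cube are not trichromatic -/
def NoTri (k i j : ℕ) : Prop :=
  tet X S T (k, i, j) (k + 1, i, j) (k + 1, i + 1, j) (k + 1, i + 1, j + 1) = 0 ∧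
  tet X S T (k, i, j) (k + 1, i, j) (k + 1, i, j + 1) (k + 1, i + 1, j + 1) = 0 ∧
  tet X S T (k, i, j) (k, i + 1, j) (k + 1, i + 1, j) (k + 1, i + 1, j + 1) = 0 ∧
  tet X S T (k, i, j) (k, i + 1, j) (k, i + 1, j + 1) (k + 1, i + 1, j + 1) = 0 ∧
  tet X S T (k, i, j) (k, i, j + 1) (k + 1, i, j + 1) (k + 1, i + 1, j + 1) = 0 ∧
  tet X S T (k, i, j) (k, i, j + 1) (k, i + 1, j + 1) (k + 1, i + 1, j + 1) = 0

theorem cube (k i j : ℕ) (h : NoTri X S T k i j) :
    sq X S T (k + 1) i j + sq X S T k i j + (fi X S T k i j + fi X S T k (i + 1) j) +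
      (fj X S T k i j + fj X S T k i (j + 1)) = 0 := by
  obtain ⟨h1, h2, h3, h4, h5, h6⟩ := h
  rw [tet_eq] at h1 h2 h3 h4 h5 h6
  have two : (2 : ZMod 2) = 0 := rfl
  simp only [sq, fi, fj]
  generalize tri X S T (k, i, j) (k + 1, i, j) (k + 1, i + 1, j + 1) = d1 at *
  generalize tri X S T (k, i, j) (k + 1, i + 1, j) (k + 1, i + 1, j + 1) = d2 at *
  generalize tri X S T (k, i, j) (k + 1, i, j + 1) (k + 1, i + 1, j + 1) = d3 at *
  generalize tri X S T (k, i, j) (k, i + 1, j) (k + 1, i + 1, j + 1) = d4 at *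
  generalize tri X S T (k, i, j) (k, i + 1, j + 1) (k + 1, i + 1, j + 1) = d5 at *
  generalize tri X S T (k, i, j) (k, i, j + 1) (k + 1, i + 1, j + 1) = d6 at *
  linear_combination h1 + h2 + h3 + h4 + h5 + h6 - (d1 + d2 + d3 + d4 + d5 + d6) * two

theorem tele (f : ℕ → ZMod 2) (n : ℕ) :
    ∑ i ∈ Finset.range n, (f i + f (i + 1)) = f 0 + f n := by
  have two : (2 : ZMod 2) = 0 := rfl
  induction n with
  | zero => simp only [Finset.range_zero, Finset.sum_empty]; linear_combination - (f 0) * two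
  | succ m ih =>
    rw [Finset.sum_range_succ, ih]
    linear_combination (f m) * two

/-- **Stokes.** If the data are (anti)periodic and no tetrahedron is trichromatic then the value
on the bottom slice equals the value on the top slice. -/
theorem stokes (n M : ℕ) (a b : ZMod 2) (a' b' : ZMod 2)
    (hXi : ∀ k j, X k n j = X k 0 j) (hXj : ∀ k i, X k i n = X k i 0)
    (hSi : ∀ k j, S k n j = S k 0 j + a) (hSj : ∀ k i, S k i n = S k i 0 + b)
    (hTi : ∀ k j, T k n j = T k 0 j + a') (hTj : ∀ k i, T k i n = T k i 0 + b')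
    (h : ∀ k < M, ∀ i < n, ∀ j < n, NoTri X S T k i j) :
    slice X S T n 0 = slice X S T n M := by
  have two : (2 : ZMod 2) = 0 := rfl
  have hfi : ∀ k j, fi X S T k n j = fi X S T k 0 j := by
    intro k j
    simp only [fi, tri, hXi, hSi, hTi]
    linear_combination
      (X k 0 j * a * (T (k+1) 0 j + T (k+1) 0 (j+1)) + X k 0 j * a' * (S k 0 j + S (k+1) 0 j)
        + 2 * X k 0 j * a * a'
        + X k 0 j * a * (T k 0 (j+1) + T (k+1) 0 (j+1)) + X k 0 j * a' * (S k 0 j + S k 0 (j+1))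
        + 2 * X k 0 j * a * a') * two
  have hfj : ∀ k i, fj X S T k i n = fj X S T k i 0 := by
    intro k i
    simp only [fj, tri, hXj, hSj, hTj]
    linear_combination
      (X k i 0 * b * (T (k+1) i 0 + T (k+1) (i+1) 0) + X k i 0 * b' * (S k i 0 + S (k+1) i 0)
        + 2 * X k i 0 * b * b'
        + X k i 0 * b * (T k (i+1) 0 + T (k+1) (i+1) 0) + X k i 0 * b' * (S k i 0 + S k (i+1) 0)
        + 2 * X k i 0 * b * b') * two
  have hstep : ∀ k < M, slice X S T n k = slice X S T n (k + 1) := by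
    intro k hk
    have h0 : ∑ i ∈ Finset.range n, ∑ j ∈ Finset.range n,
        (sq X S T (k + 1) i j + sq X S T k i j + (fi X S T k i j + fi X S T k (i + 1) j) +
          (fj X S T k i j + fj X S T k i (j + 1))) = 0 :=
      Finset.sum_eq_zero fun i hi => Finset.sum_eq_zero fun j hj =>
        cube X S T k i j (h k hk i (Finset.mem_range.1 hi) j (Finset.mem_range.1 hj))
    simp only [Finset.sum_add_distrib] at h0
    have h1 : (∑ i ∈ Finset.range n, ∑ j ∈ Finset.range n, fi X S T k i j) +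
        (∑ i ∈ Finset.range n, ∑ j ∈ Finset.range n, fi X S T k (i + 1) j) = 0 := by
      rw [Finset.sum_comm, Finset.sum_comm (f := fun i j => fi X S T k (i + 1) j),
        ← Finset.sum_add_distrib]
      refine Finset.sum_eq_zero fun j _ => ?_
      rw [← Finset.sum_add_distrib, tele, hfi]
      exact CharTwo.add_self_eq_zero _
    have h2 : (∑ i ∈ Finset.range n, ∑ j ∈ Finset.range n, fj X S T k i j) +
        (∑ i ∈ Finset.range n, ∑ j ∈ Finset.range n, fj X S T k i (j + 1)) = 0 := by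
      rw [← Finset.sum_add_distrib]
      refine Finset.sum_eq_zero fun i _ => ?_
      rw [← Finset.sum_add_distrib, tele (fun j => fj X S T k i j), hfj]
      exact CharTwo.add_self_eq_zero _
    simp only [slice]
    linear_combination h0 - h1 - h2 -
      (∑ i ∈ Finset.range n, ∑ j ∈ Finset.range n, sq X S T (k + 1) i j) * two
  clear hfi hfj h
  induction M with
  | zero => rfl
  | succ m ih =>
    rw [ih (fun k hk => hstep k (by omega)), hstep m (by omega)]

end Pool.Agent.Helper20.BandSum
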