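import Pool.Agent.Helper20.BandSum.Fam

/-!
# Linear colourings
-/

namespace Pool.Agent.Helper20.BandSum

section tak

variable {G H : Type*} [AddCommGroup G] [AddCommGroup H]

theorem isKei_tak : IsKei (tak : G → G → G) where
  idem a := by simp [tak]
  inv a b := by simp [tak]
  dist a b c := by simp only [tak]; abel

theorem eval_tak_add (c c' : ℕ → G) (t : Tm) :
    eval tak (fun j => c j + c' j) t = eval tak c t + eval tak c' t := by
  induction t with
  | var j => rfl
  | op s t ihs iht =>
    simp only [eval, ihs, iht, tak]
    abel

theorem eval_tak_map (f : G →+ H) (c : ℕ → G) (t : Tm) :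
    f (eval tak c t) = eval tak (fun j => f (c j)) t := by
  induction t with
  | var j => rfl
  | op s t ihs iht => simp only [eval, tak, map_add, map_sub, ihs, iht]

/-- the coefficient of the second family of variables -/
def kap (n₁ : ℕ) (t : Tm) : ℤ := eval tak (fun j => if j < n₁ then (0 : ℤ) else 1) t

theorem eval_tak_second (n₁ : ℕ) (g : G) (t : Tm) :
    eval tak (fun j => if j < n₁ then (0 : G) else g) t = kap n₁ t • g := by
  rw [kap, show (eval tak (fun j => if j < n₁ then (0 : ℤ) else 1) t) • g =
    (zmultiplesHom G g) (eval tak (fun j => if j < n₁ then (0 : ℤ) else 1) t) from rfl,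
    eval_tak_map]
  congr 1
  funext j
  split_ifs <;> simp

theorem kap_parity (n₁ : ℕ) (t : Tm) :
    (2 : ℤ) ∣ kap n₁ t - if t.base < n₁ then 0 else 1 := by
  induction t with
  | var j =>
    simp only [kap, eval, Tm.base]
    split_ifs <;> simp
  | op s t ihs iht =>
    simp only [kap, eval, tak, Tm.base] at iht ⊢
    omega

theorem kap_odd {n₁ : ℕ} {t : Tm} (h : ¬ t.base < n₁) : Odd (kap n₁ t) := by
  have := kap_parity n₁ t
  rw [if_neg h] at this
  rw [Int.odd_iff]
  omega

end tak

section maps

variable {Q Q' : Type*} {op : Q → Q → Q} {op' : Q' → Q' → Q'}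

theorem act_map (f : Q → Q') (hf : ∀ a b, f (op a b) = op' (f a) (f b)) (l : Letter)
    (x : ℕ → Q) : act op' l (fun j => f (x j)) = fun j => f (act op l x j) := by
  funext j
  by_cases h : l.2 = true
  · simp only [act, h, if_true]
    by_cases h1 : j = l.1
    · simp only [h1, if_true, hf]
    · by_cases h2 : j = l.1 + 1
      · simp only [h2, if_true]
        rw [if_neg (by omega), if_neg (by omega)]
      · simp only [h1, h2, if_false]
  · have h : l.2 = false := by simpa using h
    simp only [act, h, Bool.false_eq_true, if_false]
    by_cases h1 : j = l.1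
    · simp only [h1, if_true]
    · by_cases h2 : j = l.1 + 1
      · simp only [h2, if_true]
        rw [if_neg (by omega), if_neg (by omega), hf]
      · simp only [h1, h2, if_false]

theorem actWord_map (f : Q → Q') (hf : ∀ a b, f (op a b) = op' (f a) (f b)) (w : List Letter)
    (x : ℕ → Q) : actWord op' w (fun j => f (x j)) = fun j => f (actWord op w x j) := by
  induction w generalizing x with
  | nil => rfl
  | cons l w ih =>
    simp only [actWord]
    rw [act_map f hf, ih]

theorem isCol_map (f : Q → Q') (hf : ∀ a b, f (op a b) = op' (f a) (f b)) {D : Diagram}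
    {x : ℕ → Q} (h : IsCol op D x) : IsCol op' D (fun j => f (x j)) := by
  rw [IsCol, actWord_map f hf, h]

theorem isCol_const (hop : IsKei op) (D : Diagram) (a : Q) : IsCol op D (fun _ => a) := by
  have key : ∀ w : List Letter, actWord op w (fun _ => a) = fun _ => a := by
    intro w
    induction w with
    | nil => rfl
    | cons l w ih =>
      simp only [actWord]
      have : act op l (fun _ => a) = fun _ => a := by
        funext j
        simp only [act]
        split_ifs <;> simp [hop.idem]
      rw [this, ih]
  exact key _

end maps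

/-- Only one variable on the left hand side. -/
theorem normalise (t₁ t₂ : Tm) : ∃ t : Tm, t.base = t₂.base ∧ ∀ (Q : Type) (op : Q → Q → Q),
    IsKei op → ∀ c : ℕ → Q, (c t₁.base = eval op c t → eval op c t₁ = eval op c t₂) := by
  induction t₁ generalizing t₂ with
  | var j => exact ⟨t₂, rfl, fun Q op _ c h => h⟩
  | op s t _ iht =>
    obtain ⟨t', h, h'⟩ := iht (.op s t₂)
    refine ⟨t', h, fun Q op hop c hc => ?_⟩
    have h1 := h' Q op hop c hc
    simp only [eval] at h1 ⊢
    rw [h1, hop.inv]

theorem eval_trivial {Q : Type*} (c : ℕ → Q) (t : Tm) : eval (fun _ b => b) c t = c t.base := by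
  induction t with
  | var j => rfl
  | op s t _ iht => exact iht

end Pool.Agent.Helper20.BandSum
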