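import Mathlib

/-!
# Closed braid diagrams, band sums, unknotting number, Fox colourings

Links are modelled by closed braid diagrams up to Markov moves.
-/

namespace Pool.Agent.Helper20.BandSum

/-- A letter `(i, true)` is the braid generator `σ_i` crossing strands `i` and `i + 1`
(strands are numbered from `0`), and `(i, false)` is its inverse. -/
abbrev Letter := ℕ × Bool

/-- A closed braid diagram: a positive number of strands and a braid word. -/
structure Diagram where
  /-- number of strands -/
  strands : ℕ
  /-- the braid word -/
  word : List Letter
  /-- there is at least one strand -/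
  pos : 0 < strands
  /-- every letter involves two of the strands -/
  valid : ∀ l ∈ word, l.1 + 1 < strands

/-- The elementary moves between closed braid diagrams: free cancellation, the two braid
relations, conjugation (cyclic rotation of the word) and Markov stabilisation. -/
inductive Step (D E : Diagram) : Prop
  | cancel (u v : List Letter) (i : ℕ) (b : Bool) (hs : D.strands = E.strands)
      (hD : D.word = u ++ (i, b) :: (i, !b) :: v) (hE : E.word = u ++ v)
  | comm (u v : List Letter) (i j : ℕ) (b c : Bool) (hij : i + 2 ≤ j)
      (hs : D.strands = E.strands)
      (hD : D.word = u ++ (i, b) :: (j, c) :: v) (hE : E.word = u ++ (j, c) :: (i, b) :: v)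
  | braid (u v : List Letter) (i : ℕ) (hs : D.strands = E.strands)
      (hD : D.word = u ++ (i, true) :: (i + 1, true) :: (i, true) :: v)
      (hE : E.word = u ++ (i + 1, true) :: (i, true) :: (i + 1, true) :: v)
  | conj (u v : List Letter) (hs : D.strands = E.strands)
      (hD : D.word = u ++ v) (hE : E.word = v ++ u)
  | stab (b : Bool) (hs : D.strands = E.strands + 1)
      (hD : D.word = E.word ++ [(E.strands - 1, b)])

/-- Two closed braid diagrams represent the same oriented link: Markov equivalence. -/
def SameLink : Diagram → Diagram → Prop := Relation.EqvGen Step

/-- The permutation of the strands induced by a braid word. -/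
def perm : List Letter → Equiv.Perm ℕ
  | [] => 1
  | l :: w => perm w * Equiv.swap l.1 (l.1 + 1)

/-- The closed braid is a knot: its permutation moves strand `0` to every strand. -/
def IsKnot (D : Diagram) : Prop := ∀ i < D.strands, ∃ k : ℕ, (perm D.word ^ k) 0 = i

/-- The trivial diagram of the unknot: one strand, no crossing. -/
def unknot : Diagram := ⟨1, [], Nat.one_pos, by simp⟩

/-- The split union of two closed braids, placed side by side. -/
def split (D E : Diagram) : Diagram where
  strands := D.strands + E.strands
  word := D.word ++ E.word.map (fun l => (l.1 + D.strands, l.2))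
  pos := Nat.add_pos_left D.pos _
  valid := by
    intro l hl
    rcases List.mem_append.1 hl with h | h
    · have := D.valid l h
      omega
    · obtain ⟨m, hm, rfl⟩ := List.mem_map.1 h
      have := E.valid m hm
      simp only
      omega

/-- `E` arises from `D` by attaching a (coherently oriented, half twisted) band between two
adjacent strands, that is, by inserting one letter in the braid word. -/
def BandMove (D E : Diagram) : Prop :=
  ∃ (u v : List Letter) (i : ℕ) (b : Bool), D.strands = E.strands ∧ D.word = u ++ v ∧
    E.word = u ++ (i, b) :: v

/-- `K` is a band sum of the knots `K₁` and `K₂`: some diagram of the split link of `K₁` and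
`K₂` becomes a diagram of the knot `K` by one band move. -/
structure IsBandSum (K K₁ K₂ : Diagram) : Prop where
  /-- the first summand is a knot -/
  knot₁ : IsKnot K₁
  /-- the second summand is a knot -/
  knot₂ : IsKnot K₂
  /-- the result is a knot -/
  knot : IsKnot K
  /-- the band move -/
  band : ∃ D E : Diagram, SameLink D (split K₁ K₂) ∧ BandMove D E ∧ SameLink E K

/-- `E` arises from `D` by one crossing change. -/
def CrossingChange (D E : Diagram) : Prop :=
  ∃ (u v : List Letter) (i : ℕ) (b : Bool), D.strands = E.strands ∧
    D.word = u ++ (i, b) :: v ∧ E.word = u ++ (i, !b) :: v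

/-- `UnknotsIn k D`: the link of `D` can be turned into the unknot by `k` crossing changes,
with arbitrary changes of diagram in between. -/
inductive UnknotsIn : ℕ → Diagram → Prop
  | unknot {D : Diagram} (h : SameLink D unknot) : UnknotsIn 0 D
  | change {k : ℕ} {D E E' : Diagram} (h : SameLink D E) (h' : CrossingChange E E')
      (h'' : UnknotsIn k E') : UnknotsIn (k + 1) D

/-- The unknotting number. -/
noncomputable def unknottingNumber (D : Diagram) : ℕ∞ :=
  ⨅ (k : ℕ) (_ : UnknotsIn k D), (k : ℕ∞)

section Colourings

/-- An involutory quandle (kei). -/
structure IsKei {Q : Type*} (op : Q → Q → Q) : Prop where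
  idem : ∀ a, op a a = a
  inv : ∀ a b, op a (op a b) = b
  dist : ∀ a b c, op a (op b c) = op (op a b) (op a c)

variable {Q : Type*} (op : Q → Q → Q)

/-- The colouring rule at one crossing: if the strands `i`, `i + 1` carry the colours
`a`, `b` above the crossing `σ_i`, they carry `a ▷ b` and `a` below it; for the inverse
crossing they carry `b` and `b ▷ a` below it. -/
def act (l : Letter) (x : ℕ → Q) : ℕ → Q :=
  if l.2 then
    fun j => if j = l.1 then op (x l.1) (x (l.1 + 1)) else if j = l.1 + 1 then x l.1 else x j
  else
    fun j => if j = l.1 then x (l.1 + 1)
      else if j = l.1 + 1 then op (x (l.1 + 1)) (x l.1) else x j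

/-- Propagation of colours through a braid word. -/
def actWord : List Letter → (ℕ → Q) → (ℕ → Q)
  | [] => id
  | l :: w => fun x => actWord w (act op l x)

/-- `x` is a colouring of the closed braid: the colours at the top are reproduced at the
bottom. -/
def IsCol (D : Diagram) (x : ℕ → Q) : Prop := actWord op D.word x = x

/-- The operation `a ▷ b = 2 a - b` of the Fox colourings. -/
def tak {G : Type*} [AddCommGroup G] (a b : G) : G := a + a - b

/-- The diagram has a nonconstant Fox colouring modulo `n`: elements of `ZMod n` at the
strands, not all equal, such that at every crossing twice the colour of the over strand is the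
sum of the colours of the two under strands. -/
def FoxColourable (n : ℕ) (D : Diagram) : Prop :=
  ∃ x : ℕ → ZMod n, IsCol tak D x ∧ ∃ j < D.strands, x j ≠ x 0

/-- Terms in the operation `▷` with variables in `ℕ`. -/
inductive Tm
  | var : ℕ → Tm
  | op : Tm → Tm → Tm

/-- evaluation of a term -/
def eval (c : ℕ → Q) : Tm → Q
  | .var j => c j
  | .op s t => op (eval c s) (eval c t)

/-- substitution -/
def Tm.subst (τ : ℕ → Tm) : Tm → Tm
  | .var j => τ j
  | .op s t => .op (s.subst τ) (t.subst τ)

theorem eval_subst (c : ℕ → Q) (τ : ℕ → Tm) (t : Tm) :
    eval op c (t.subst τ) = eval op (fun j => eval op c (τ j)) t := by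
  induction t with
  | var j => rfl
  | op s t ihs iht => simp only [Tm.subst, eval, ihs, iht]

end Colourings

end Pool.Agent.Helper20.BandSum
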