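import Pool.Agent.Helper20.BandSum.Grid

/-!
# The topological lemma

Three continuous functions `e2`, `e3`, `f` of `(θ, x, y)` with prescribed (anti)periods and
prescribed values at `θ = 0` and `θ = π` have a common zero.
-/

namespace Pool.Agent.Helper20.BandSum

open Real

theorem sq_zero {X S T : ℕ → ℕ → ℕ → ZMod 2} {n k i j : ℕ} (hj : j + 1 < n) (hi : i < n)
    (hT : ∀ i ≤ n, ∀ j < n, T k i j = 0) : sq X S T k i j = 0 := by
  simp only [sq, tri]
  rw [hT (i + 1) hi j (by omega), hT (i + 1) hi (j + 1) hj, hT i (by omega) (j + 1) hj]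
  simp

theorem slice_eval {X S T : ℕ → ℕ → ℕ → ZMod 2} {n k : ℕ}
    (hT : ∀ i ≤ n + 1, ∀ j < n + 1, T k i j = 0) (hT' : ∀ i ≤ n + 1, T k i (n + 1) = 1) :
    slice X S T (n + 1) k =
      ∑ i ∈ Finset.range (n + 1), X k i n * (S k i n + S k (i + 1) n) := by
  rw [slice]
  refine Finset.sum_congr rfl fun i hi => ?_
  have hi := Finset.mem_range.1 hi
  rw [Finset.sum_range_succ, Finset.sum_eq_zero, zero_add]
  · simp only [sq, tri]
    rw [hT (i + 1) hi n (by omega), hT' (i + 1) hi, hT' i (by omega)]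
    have two : (1 + 1 : ZMod 2) = 0 := rfl
    rw [two]
    ring
  · intro j hj
    have hj := Finset.mem_range.1 hj
    exact sq_zero (n := n + 1) (by omega) hi hT

end Pool.Agent.Helper20.BandSum
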